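import Mathlib
import Pool.Agent.Helper22.TSModel
import Pool.Agent.Helper22.ETEmbed

set_option autoImplicit false

/-!
# Project SP (small memory, almost cubic bound for Exact Triangle): definitions

Random choices: every element `e` (weight edge) gets `k` digits in base `b`, and for every level
`r < k` there is a random hash function from cells (prefixes of `r + 1` digits) to `Fin U`.
-/

namespace Pool.Agent.Helper23.SP

open Finset
open Pool.Agent.Helper22.ETModel Pool.Agent.Helper22.TSModel

/-! ## Sparse linear queries -/

/-- Sparse linear queries: an affine form with at most `s` terms (a cell and a coefficient each),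
integer coefficients of absolute value at most `K`, and an integer constant of absolute value at
most `C`. -/
structure SparseQ (n s K C : ℕ) where
  cell : Fin s → Fin n × Fin n
  coef : Fin s → ℤ
  const : ℤ
  coef_le : ∀ l, |coef l| ≤ K
  const_le : |const| ≤ C

/-- The value of the affine form. -/
def SparseQ.val {n s K C : ℕ} (q : SparseQ n s K C) (I : Inst n) : ℤ :=
  q.const + ∑ l, q.coef l * I.wt (q.cell l).1 (q.cell l).2

/-- The family of all sign queries of sparse affine forms. -/
noncomputable def sparseFam (n s K C : ℕ) : Family n (SparseQ n s K C) SignType where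
  cells q := Finset.univ.image fun l => s((q.cell l).1, (q.cell l).2)
  ans q I := SignType.sign (q.val I)

/-! ## The random choices -/

/-- The random choices: digits of the elements and hash functions. -/
abbrev Om (El : Type) (k b U : ℕ) := (El → Fin k → Fin b) × (Fin k → (Fin k → Fin b) → Fin U)

section basic

variable {El : Type} {k b U : ℕ} [NeZero b]

/-- The cell of level `r`: the first `r` digits (the others are replaced by zero). -/
def pre (r : ℕ) (x : Fin k → Fin b) : Fin k → Fin b := fun i => if i.val < r then x i else 0

/-- The hash value of level `r` of the element `e`. -/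
def g (r : Fin k) (ω : Om El k b U) (e : El) : Fin U := ω.2 r (pre (r.val + 1) (ω.1 e))

/-- Replace the digits number `r` of all elements and the hash function number `r`. -/
def put (r : Fin k) (ω : Om El k b U) (ξ : (El → Fin b) × ((Fin k → Fin b) → Fin U)) :
    Om El k b U :=
  (fun e => Function.update (ω.1 e) r (ξ.1 e), Function.update ω.2 r ξ.2)

/-- Support of a coefficient vector. -/
def supp [Fintype El] (γ : El → ℤ) : Finset El := univ.filter (fun e => γ e ≠ 0)

/-- The query with coefficients `γ` passes level `r`: on all levels `i < r` the sum of the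
coefficients in every hash class is zero. -/
def Pass [Fintype El] (γ : El → ℤ) (ω : Om El k b U) (r : ℕ) : Prop :=
  ∀ i : Fin k, i.val < r → ∀ u : Fin U, ∑ e ∈ univ.filter (fun e => g i ω e = u), γ e = 0

end basic

/-! ## Processes -/

/-- A process with states in `V`: at time `t` in state `v` it asks a query with coefficients
`γ t v`, and then moves to the state `nx t v ω`. -/
structure Proc (El : Type) (k b U : ℕ) (V : Type) where
  γ : ℕ → V → El → ℤ
  nx : ℕ → V → Om El k b U → V

section proc

variable {El V : Type} [Fintype El] {k b U : ℕ} [NeZero b]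

/-- The next state depends only on the hash values of the elements in the query, and if the query
does not pass level `r`, then only on the hash values of the levels below `r`. -/
structure Proc.OK (P : Proc El k b U V) (s : ℕ) : Prop where
  card_le : ∀ t v, (supp (P.γ t v)).card ≤ s
  full : ∀ t v ω ω', (∀ i : Fin k, ∀ e ∈ supp (P.γ t v), g i ω e = g i ω' e) →
    P.nx t v ω = P.nx t v ω'
  part : ∀ t v ω ω' (r : ℕ), ¬ Pass (P.γ t v) ω r →
    (∀ i : Fin k, i.val < r → ∀ e ∈ supp (P.γ t v), g i ω e = g i ω' e) →
    P.nx t v ω = P.nx t v ω'

/-- The state after `i` steps, when the process is started at time `t0` in state `v`. -/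
def Proc.st (P : Proc El k b U V) (ω : Om El k b U) (t0 : ℕ) (v : V) : ℕ → V
  | 0 => v
  | i + 1 => P.nx (t0 + i) (P.st ω t0 v i) ω

open Classical in
/-- The elements revealed on level `r` in the window of `τ` steps started at time `t0` in state
`v`: the supports of the queries of the window that pass level `r`. -/
noncomputable def Proc.rev (P : Proc El k b U V) (ω : Om El k b U) (t0 : ℕ) (v : V) (τ r : ℕ) :
    Finset El :=
  (range τ).biUnion fun i =>
    if Pass (P.γ (t0 + i) (P.st ω t0 v i)) ω r then supp (P.γ (t0 + i) (P.st ω t0 v i)) else ∅

end proc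

/-! ## The abstract reading process -/

section read

variable {El V X : Type} [DecidableEq El]

/-- State after `i` steps. -/
def rst (nx : ℕ → V → X → V) (v0 : V) (ω : X) : ℕ → V
  | 0 => v0
  | i + 1 => nx i (rst nx v0 ω i) ω

/-- Elements read in the first `n` steps. -/
def rd (S : ℕ → V → Finset El) (nx : ℕ → V → X → V) (v0 : V) (ω : X) (n : ℕ) : Finset El :=
  (range n).biUnion fun i => S i (rst nx v0 ω i)

end read

/-! ## The weights -/

section weights

/-- `mu` has no nontrivial integer relation with at most `s` terms and coefficients of absolute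
value at most `N`. -/
def Free {U : ℕ} (mu : Fin U → ℕ) (s N : ℕ) : Prop :=
  ∀ Γ : Fin U → ℤ, (supp Γ).card ≤ s → (∀ u, |Γ u| ≤ N) → ∑ u, Γ u * (mu u : ℤ) = 0 → ∀ u, Γ u = 0

variable {El : Type} {k b U : ℕ} [NeZero b]

/-- The value of the element `e`; `tiny e` is its last digit. -/
def value (L Y : ℕ) (mu : Fin U → ℕ) (ω : Om El k b U) (tiny : El → ℤ) (e : El) : ℤ :=
  (L : ℤ) * (∑ r : Fin k, (Y : ℤ) ^ (k - 1 - r.val) * (mu (g r ω e) : ℤ)) + tiny e

variable {m : ℕ}

/-- Sign of an edge type: `+` for edges from part `0` to part `1`, `-` for edges from part `1` to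
part `2`, and `0` for edges from part `2` to part `0`. -/
def sg (e : E m) : ℤ := if e.1 = 0 then 1 else if e.1 = 1 then -1 else 0

/-- The last digits in the basic instance. -/
def tinyB (e : E m) : ℤ := if e.1 = 0 then 1 else 0

/-- The last digits in the instance changed at `e0`. -/
def tinyP (e0 : E m) (e : E m) : ℤ := if e = e0 then 0 else tinyB e

/-- The weights. -/
def wgt (L Y : ℕ) (mu : Fin U → ℕ) (ω : Om (E m) k b U) (tiny : E m → ℤ) (e : E m) : ℤ :=
  sg e * value L Y mu ω tiny e

/-- The coefficients of a query with respect to the values of the elements. -/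
def qcoef {n s K C : ℕ} (h : 3 * m ≤ n) (q : SparseQ n s K C) (e : E m) : ℤ :=
  sg e * ∑ l, q.coef l *
    ((if enc h e = q.cell l then 1 else 0) + (if enc h e = (q.cell l).swap then 1 else 0))

end weights

end Pool.Agent.Helper23.SP
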