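import Pool.Agent.Helper23.SP.Basic

set_option autoImplicit false

/-!
# Light and heavy cells
-/

namespace Pool.Agent.Helper23.SP

open Finset

/-- The elements of `R` in light cells: cells of `c0` containing at most `t` elements of `R`. -/
def lightSet {El C : Type} [DecidableEq C] (c0 : El → C) (t : ℕ) (R : Finset El) : Finset El :=
  R.filter (fun e => (R.filter (fun e' => c0 e' = c0 e)).card ≤ t)

/-- The elements of `R` in heavy cells: cells of `c0` containing more than `t` elements of `R`. -/
def heavySet {El C : Type} [DecidableEq C] (c0 : El → C) (t : ℕ) (R : Finset El) : Finset El :=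
  R.filter (fun e => t < (R.filter (fun e' => c0 e' = c0 e)).card)

end Pool.Agent.Helper23.SP
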