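import Pool.Agent.Helper23.SP.Defs

set_option autoImplicit false

/-!
# Basic facts on windows of a process
-/

namespace Pool.Agent.Helper23.SP

open Finset

variable {El V : Type} [Fintype El] {k b U : ℕ} [NeZero b]

lemma mem_supp {γ : El → ℤ} {e : El} : e ∈ supp γ ↔ γ e ≠ 0 := by
  simp [supp]

lemma Pass.mono {γ : El → ℤ} {ω : Om El k b U} {r r' : ℕ} (h : Pass γ ω r') (hr : r ≤ r') :
    Pass γ ω r := fun i hi u => h i (lt_of_lt_of_le hi hr) u

lemma st_zero (P : Proc El k b U V) (ω : Om El k b U) (t0 : ℕ) (v : V) : P.st ω t0 v 0 = v := rfl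

lemma st_succ (P : Proc El k b U V) (ω : Om El k b U) (t0 : ℕ) (v : V) (i : ℕ) :
    P.st ω t0 v (i + 1) = P.nx (t0 + i) (P.st ω t0 v i) ω := rfl

lemma st_add (P : Proc El k b U V) (ω : Om El k b U) (t0 : ℕ) (v : V) (i j : ℕ) :
    P.st ω t0 v (i + j) = P.st ω (t0 + i) (P.st ω t0 v i) j := by
  induction j with
  | zero => rfl
  | succ j ih =>
    rw [← Nat.add_assoc, st_succ, st_succ, ih, Nat.add_assoc]

lemma mem_rev {P : Proc El k b U V} {ω : Om El k b U} {t0 : ℕ} {v : V} {τ r : ℕ} {e : El} :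
    e ∈ P.rev ω t0 v τ r ↔ ∃ i, i < τ ∧ Pass (P.γ (t0 + i) (P.st ω t0 v i)) ω r ∧
      e ∈ supp (P.γ (t0 + i) (P.st ω t0 v i)) := by
  classical
  unfold Proc.rev
  rw [mem_biUnion]
  constructor
  · rintro ⟨i, hi, h⟩
    split_ifs at h with hp
    · exact ⟨i, mem_range.1 hi, hp, h⟩
    · simp at h
  · rintro ⟨i, hi, hp, h⟩
    refine ⟨i, mem_range.2 hi, ?_⟩
    rw [if_pos hp]
    exact h

lemma rev_mono (P : Proc El k b U V) (ω : Om El k b U) (t0 : ℕ) (v : V) {τ τ' r r' : ℕ}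
    (hτ : τ ≤ τ') (hr : r' ≤ r) : P.rev ω t0 v τ r ⊆ P.rev ω t0 v τ' r' := by
  intro e he
  rw [mem_rev] at he ⊢
  obtain ⟨i, hi, hp, h⟩ := he
  exact ⟨i, by omega, hp.mono hr, h⟩

lemma rev_card_le {P : Proc El k b U V} {s : ℕ} (hP : P.OK s) (ω : Om El k b U) (t0 : ℕ) (v : V)
    (τ r : ℕ) : (P.rev ω t0 v τ r).card ≤ s * τ := by
  classical
  unfold Proc.rev
  refine card_biUnion_le.trans ?_
  have : ∀ i ∈ range τ, (if Pass (P.γ (t0 + i) (P.st ω t0 v i)) ω r then
      supp (P.γ (t0 + i) (P.st ω t0 v i)) else (∅ : Finset El)).card ≤ s := by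
    intro i _
    split_ifs
    · exact hP.card_le _ _
    · simp
  refine (sum_le_sum this).trans ?_
  rw [sum_const, card_range, smul_eq_mul, mul_comm]

/-- A long window consists of `N` short windows. -/
lemma rev_mul_card (P : Proc El k b U V) (ω : Om El k b U) (t0 : ℕ) (v : V) (N l r c : ℕ)
    (h : ∀ j < N, (P.rev ω (t0 + j * l) (P.st ω t0 v (j * l)) l r).card ≤ c) :
    (P.rev ω t0 v (N * l) r).card ≤ N * c := by
  classical
  have hsub : P.rev ω t0 v (N * l) r ⊆ (range N).biUnion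
      (fun j => P.rev ω (t0 + j * l) (P.st ω t0 v (j * l)) l r) := by
    intro e he
    rw [mem_rev] at he
    obtain ⟨i, hi, hp, h⟩ := he
    rw [mem_biUnion]
    have hl : 0 < l := by
      rcases Nat.eq_zero_or_pos l with h0 | h0
      · subst h0; simp at hi
      · exact h0
    have hdm := Nat.div_add_mod i l
    refine ⟨i / l, mem_range.2 ?_, ?_⟩
    · rw [Nat.div_lt_iff_lt_mul hl]; exact hi
    · rw [mem_rev]
      have e1 : t0 + i / l * l + i % l = t0 + i := by
        rw [Nat.add_assoc, mul_comm (i / l) l, hdm]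
      have e2 : P.st ω (t0 + i / l * l) (P.st ω t0 v (i / l * l)) (i % l) = P.st ω t0 v i := by
        rw [← st_add, mul_comm (i / l) l, hdm]
      refine ⟨i % l, Nat.mod_lt _ hl, ?_, ?_⟩
      · rw [e1, e2]; exact hp
      · rw [e1, e2]; exact h
  refine (card_le_card hsub).trans (card_biUnion_le.trans ?_)
  refine (sum_le_sum (fun j hj => h j (mem_range.1 hj))).trans ?_
  rw [sum_const, card_range, smul_eq_mul]

end Pool.Agent.Helper23.SP
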