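import Pool.Agent.Helper23.SP.Final2

set_option autoImplicit false

/-!
# The asymptotic form, second version
-/

namespace Pool.Agent.Helper23.SP

open Finset
open Pool.Agent.Helper22.ETModel Pool.Agent.Helper22.TSModel

lemma size_real {s c k K x n : ℕ} {σ δ : ℝ} (hn1 : (1 : ℝ) ≤ n) (hK1 : (1 : ℝ) ≤ K)
    (hKn : (K : ℝ) ≤ (n : ℝ) ^ δ) (hxle2 : (x : ℝ) ≤ (n : ℝ) ^ (σ + 3 * δ))
    (hb2 : (3 * (s : ℝ)) ^ (2 * (s + 1) * k) * (s + 2) ≤ (n : ℝ) ^ δ)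
    (hδ2 : δ * (2 + 2 * (s + 1) * k + 6 * s * k) ≤ 300 - 2 * s - c - 2 * s * σ * k) :
    (3 * (s : ℝ) * K) ^ (2 * (s + 1) * k) * (x : ℝ) ^ (2 * s * k) *
        (n : ℝ) ^ (2 * s) * ((n : ℝ) ^ c + s * K + 1) ≤ (n : ℝ) ^ 300 := by
  have hn0 : (0 : ℝ) < n := by linarith
  have hnc : (1 : ℝ) ≤ (n : ℝ) ^ c := one_le_pow₀ hn1
  have h1 : (n : ℝ) ^ c + s * K + 1 ≤ (s + 2) * K * (n : ℝ) ^ c := by
    have h2 : (n : ℝ) ^ c ≤ K * (n : ℝ) ^ c := le_mul_of_one_le_left (by positivity) hK1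
    have h3 : (s : ℝ) * K ≤ s * (K * (n : ℝ) ^ c) := by
      apply mul_le_mul_of_nonneg_left _ (by positivity)
      exact le_mul_of_one_le_right (by positivity) hnc
    have h4 : (1 : ℝ) ≤ K * (n : ℝ) ^ c := one_le_mul_of_one_le_of_one_le hK1 hnc
    nlinarith
  have hKp : (K : ℝ) ^ (2 * (s + 1) * k + 1) ≤ (n : ℝ) ^ (δ * (2 * (s + 1) * k + 1)) := by
    calc (K : ℝ) ^ (2 * (s + 1) * k + 1) ≤ ((n : ℝ) ^ δ) ^ (2 * (s + 1) * k + 1) :=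
          pow_le_pow_left₀ (by positivity) hKn _
      _ = (n : ℝ) ^ (δ * (2 * (s + 1) * k + 1)) := by
          rw [← Real.rpow_natCast ((n : ℝ) ^ δ), ← Real.rpow_mul hn0.le]
          push_cast
          ring_nf
  have hxp : (x : ℝ) ^ (2 * s * k) ≤ (n : ℝ) ^ ((σ + 3 * δ) * (2 * s * k)) := by
    calc (x : ℝ) ^ (2 * s * k) ≤ ((n : ℝ) ^ (σ + 3 * δ)) ^ (2 * s * k) :=
          pow_le_pow_left₀ (by positivity) hxle2 _
      _ = (n : ℝ) ^ ((σ + 3 * δ) * (2 * s * k)) := by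
          rw [← Real.rpow_natCast ((n : ℝ) ^ (σ + 3 * δ)), ← Real.rpow_mul hn0.le]
          push_cast
          ring_nf
  have h5 : (n : ℝ) ^ ((2 : ℝ) * s + c) = (n : ℝ) ^ (2 * s + c) := by
    rw [← Real.rpow_natCast]
    push_cast
    rfl
  have h6 : (n : ℝ) ^ δ * (n : ℝ) ^ (δ * (2 * (s + 1) * k + 1)) *
      (n : ℝ) ^ ((σ + 3 * δ) * (2 * s * k)) * (n : ℝ) ^ ((2 : ℝ) * s + c) ≤
      (n : ℝ) ^ (300 : ℝ) := by
    rw [← Real.rpow_add hn0, ← Real.rpow_add hn0, ← Real.rpow_add hn0]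
    apply Real.rpow_le_rpow_of_exponent_le hn1
    linarith
  calc (3 * (s : ℝ) * K) ^ (2 * (s + 1) * k) * (x : ℝ) ^ (2 * s * k) * (n : ℝ) ^ (2 * s) *
        ((n : ℝ) ^ c + s * K + 1)
      ≤ (3 * (s : ℝ) * K) ^ (2 * (s + 1) * k) * (x : ℝ) ^ (2 * s * k) * (n : ℝ) ^ (2 * s) *
        ((s + 2) * K * (n : ℝ) ^ c) := by
        apply mul_le_mul_of_nonneg_left h1 (by positivity)
    _ = (3 * (s : ℝ)) ^ (2 * (s + 1) * k) * (s + 2) * (K : ℝ) ^ (2 * (s + 1) * k + 1) *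
        (x : ℝ) ^ (2 * s * k) * (n : ℝ) ^ (2 * s + c) := by
        rw [mul_pow _ (K : ℝ), pow_succ (K : ℝ), pow_add (n : ℝ)]
        ring
    _ ≤ (n : ℝ) ^ δ * (n : ℝ) ^ (δ * (2 * (s + 1) * k + 1)) *
        (n : ℝ) ^ ((σ + 3 * δ) * (2 * s * k)) * (n : ℝ) ^ ((2 : ℝ) * s + c) := by
        rw [h5]
        apply mul_le_mul_of_nonneg_right _ (by positivity)
        apply mul_le_mul _ hxp (by positivity) (by positivity)
        exact mul_le_mul hb2 hKp (by positivity) (by positivity)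
    _ ≤ (n : ℝ) ^ (300 : ℝ) := h6
    _ = (n : ℝ) ^ 300 := by
        rw [← Real.rpow_natCast]
        norm_num

lemma logb_le {n : ℕ} {δ : ℝ} (hn0 : (0 : ℝ) < n) (hδ0 : 0 < δ) :
    Real.logb 2 n ≤ 2 / δ * (n : ℝ) ^ δ := by
  have h1 : Real.log n ≤ (n : ℝ) ^ δ / δ := Real.log_le_rpow_div hn0.le hδ0
  have h2 : (1 : ℝ) / 2 ≤ Real.log 2 := by
    have := Real.log_two_gt_d9; linarith
  unfold Real.logb
  rw [div_le_iff₀ (by linarith)]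
  calc Real.log n ≤ (n : ℝ) ^ δ / δ := h1
    _ = 2 / δ * (n : ℝ) ^ δ * (1 / 2) := by ring
    _ ≤ 2 / δ * (n : ℝ) ^ δ * Real.log 2 := mul_le_mul_of_nonneg_left h2 (by positivity)

lemma x_le {n s W : ℕ} {δ : ℝ} (hn1 : (1 : ℝ) ≤ n) (hn : 1 ≤ n) (hW : 1 ≤ W) (hδ0 : 0 < δ)
    (hb1 : (s : ℝ) + 5 + 8 / δ ≤ (n : ℝ) ^ δ) :
    ((s + Nat.clog 2 (16 * n ^ 4 * W) : ℕ) : ℝ) ≤ (n : ℝ) ^ (2 * δ) * (1 + Real.logb 2 W) := by
  have hn0 : (0 : ℝ) < n := by linarith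
  have hW1 : (1 : ℝ) ≤ W := by exact_mod_cast hW
  have hlogW : 0 ≤ Real.logb 2 W := Real.logb_nonneg (by norm_num) hW1
  have hlogn0 : 0 ≤ Real.logb 2 n := Real.logb_nonneg (by norm_num) hn1
  have hlogn : Real.logb 2 n ≤ 2 / δ * (n : ℝ) ^ δ := logb_le hn0 hδ0
  have hnδ1 : 1 ≤ (n : ℝ) ^ δ := Real.one_le_rpow hn1 hδ0.le
  have hbig : 1 < 16 * n ^ 4 * W := by
    have : 1 ≤ n ^ 4 * W := Nat.mul_pos (Nat.pow_pos (by omega)) hW
    rw [mul_assoc]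
    omega
  have h1 := Nat.pow_pred_clog_lt_self (b := 2) (by norm_num) hbig
  have hc1 : 1 ≤ Nat.clog 2 (16 * n ^ 4 * W) := Nat.clog_pos (by norm_num) hbig
  have h2 : ((Nat.clog 2 (16 * n ^ 4 * W) : ℕ) : ℝ) - 1 ≤ Real.logb 2 (16 * n ^ 4 * W) := by
    rw [Real.le_logb_iff_rpow_le (by norm_num) (by positivity)]
    have h3 : ((2 ^ (Nat.clog 2 (16 * n ^ 4 * W)).pred : ℕ) : ℝ) ≤
        ((16 * n ^ 4 * W : ℕ) : ℝ) := by
      exact_mod_cast h1.le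
    push_cast at h3
    calc (2 : ℝ) ^ (((Nat.clog 2 (16 * n ^ 4 * W) : ℕ) : ℝ) - 1)
        = (2 : ℝ) ^ (Nat.clog 2 (16 * n ^ 4 * W)).pred := by
          rw [← Real.rpow_natCast]
          congr 1
          rw [Nat.pred_eq_sub_one, Nat.cast_sub hc1, Nat.cast_one]
      _ ≤ 16 * n ^ 4 * W := h3
  have h4 : Real.logb 2 (16 * n ^ 4 * W) = 4 + 4 * Real.logb 2 n + Real.logb 2 W := by
    rw [Real.logb_mul (by positivity) (by positivity), Real.logb_mul (by norm_num)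
      (by positivity), Real.logb_pow]
    have h5 : Real.logb 2 16 = 4 := by
      rw [show (16 : ℝ) = 2 ^ (4 : ℝ) by norm_num, Real.logb_rpow (by norm_num) (by norm_num)]
    rw [h5]
    push_cast
    ring
  rw [h4] at h2
  have h5 : ((s + Nat.clog 2 (16 * n ^ 4 * W) : ℕ) : ℝ) ≤
      (s + 5 + 4 * Real.logb 2 n) * (1 + Real.logb 2 W) := by
    push_cast
    have h6 : (0 : ℝ) ≤ (s + 4 + 4 * Real.logb 2 n) * Real.logb 2 W := by positivity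
    nlinarith
  have h6 : (s : ℝ) + 5 + 4 * Real.logb 2 n ≤ (s + 5 + 8 / δ) * (n : ℝ) ^ δ := by
    have h7 : (s : ℝ) + 5 ≤ (s + 5) * (n : ℝ) ^ δ := le_mul_of_one_le_right (by positivity) hnδ1
    have h8 : 4 * (2 / δ * (n : ℝ) ^ δ) = 8 / δ * (n : ℝ) ^ δ := by ring
    linarith
  have h7 : (n : ℝ) ^ δ * (n : ℝ) ^ δ = (n : ℝ) ^ (2 * δ) := by
    rw [← Real.rpow_add hn0]; ring_nf
  calc ((s + Nat.clog 2 (16 * n ^ 4 * W) : ℕ) : ℝ)
      ≤ (s + 5 + 4 * Real.logb 2 n) * (1 + Real.logb 2 W) := h5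
    _ ≤ (n : ℝ) ^ δ * (n : ℝ) ^ δ * (1 + Real.logb 2 W) := by
        apply mul_le_mul_of_nonneg_right _ (by linarith)
        exact h6.trans (mul_le_mul_of_nonneg_right hb1 (by positivity))
    _ = (n : ℝ) ^ (2 * δ) * (1 + Real.logb 2 W) := by rw [h7]

theorem asymptotic2 (s c : ℕ) (hs : 1 ≤ s) (σ ε : ℝ) (hσ : 0 ≤ σ) (hε : 0 < ε)
    (hgap : 2 * (s : ℝ) + c + 2 * s * σ * (1 / ε + 1) < 300) :
    ∃ δ : ℝ, 0 < δ ∧ ∃ n₀ : ℕ, ∀ n : ℕ, n₀ ≤ n → ∀ K D W R : ℕ, 1 ≤ K →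
      (K : ℝ) ≤ (n : ℝ) ^ δ → Real.logb 2 W ≤ (n : ℝ) ^ σ →
      ∀ A : Alg n D W R (SparseQ n s K (n ^ c)) SignType, A.Decides (sparseFam n s K (n ^ c)) →
        (n : ℝ) ^ (3 - ε) ≤ D * (1 + Real.logb 2 W) := by
  have hs1 : (1 : ℝ) ≤ s := by exact_mod_cast hs
  -- the number of levels
  obtain ⟨k, hkdef⟩ : ∃ k : ℕ, k = ⌊1 / ε⌋₊ + 1 := ⟨_, rfl⟩
  have hk1 : 1 ≤ k := by omega
  have hk0 : (0 : ℝ) < k := by
    have : 0 < k := hk1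
    exact_mod_cast this
  have hk1r : (1 : ℝ) ≤ k := by exact_mod_cast hk1
  have hklt : 1 / ε < k := by
    rw [hkdef]; push_cast
    exact Nat.lt_floor_add_one _
  have hkle : (k : ℝ) ≤ 1 / ε + 1 := by
    rw [hkdef]; push_cast
    have := Nat.floor_le (show 0 ≤ 1 / ε by positivity)
    linarith
  have hkε : 1 / (k : ℝ) < ε := by
    rw [div_lt_iff₀ hk0]
    rw [div_lt_iff₀ hε] at hklt
    linarith
  set η : ℝ := ε - 1 / k with hη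
  have hη0 : 0 < η := by rw [hη]; linarith
  set gap : ℝ := 300 - 2 * s - c - 2 * s * σ * k with hgapdef
  have hgap0 : 0 < gap := by
    have h1 : 2 * (s : ℝ) * σ * k ≤ 2 * s * σ * (1 / ε + 1) :=
      mul_le_mul_of_nonneg_left hkle (by positivity)
    rw [hgapdef]; linarith
  set q : ℝ := 2 + 2 * (s + 1) * k + 6 * s * k with hq
  have hq0 : 0 < q := by rw [hq]; positivity
  set δ : ℝ := min (η / (2 * k + 3)) (gap / q) with hδ
  have hδ0 : 0 < δ := lt_min (by positivity) (by positivity)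
  have hδ1 : δ * (2 * k + 3) ≤ η := by
    have h1 : δ ≤ η / (2 * k + 3) := min_le_left _ _
    rwa [le_div_iff₀ (by positivity)] at h1
  have hδ2 : δ * q ≤ gap := by
    have h1 : δ ≤ gap / q := min_le_right _ _
    rwa [le_div_iff₀ hq0] at h1
  refine ⟨δ, hδ0, ?_⟩
  -- the threshold
  set B1 : ℝ := s + 5 + 8 / δ with hB1
  set B2 : ℝ := (3 * (s : ℝ)) ^ (2 * (s + 1) * k) * (s + 2) with hB2
  set B3 : ℝ := (2 ^ 14 / δ) ^ (2 * k) * s with hB3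
  have hB10 : 0 ≤ B1 := by positivity
  have hB20 : 0 ≤ B2 := by positivity
  have hB30 : 0 ≤ B3 := by positivity
  set B : ℝ := max 2 (max B1 (max B2 B3)) with hB
  have hB0 : 0 ≤ B := le_trans (by norm_num) (le_max_left _ _)
  obtain ⟨n₀, hn₀⟩ : ∃ n₀ : ℕ, max 3 (B ^ (1 / δ)) ≤ n₀ := exists_nat_ge _
  refine ⟨n₀, ?_⟩
  intro n hn K D W R hK hKn hWn A hA
  have hnR : (n₀ : ℝ) ≤ n := by exact_mod_cast hn
  have hn3 : (3 : ℝ) ≤ n := (le_max_left _ _).trans (hn₀.trans hnR)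
  have hn3' : 3 ≤ n := by exact_mod_cast hn3
  have hn1 : (1 : ℝ) ≤ n := by linarith
  have hn0 : (0 : ℝ) < n := by linarith
  have hbB : B ≤ (n : ℝ) ^ δ := by
    have h1 : B ^ (1 / δ) ≤ n := (le_max_right _ _).trans (hn₀.trans hnR)
    calc B = (B ^ (1 / δ)) ^ δ := by
          rw [← Real.rpow_mul hB0, one_div, inv_mul_cancel₀ hδ0.ne', Real.rpow_one]
      _ ≤ (n : ℝ) ^ δ := Real.rpow_le_rpow (by positivity) h1 hδ0.le
  have hb0 : 2 ≤ (n : ℝ) ^ δ := (le_max_left _ _).trans hbB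
  have hb1 : B1 ≤ (n : ℝ) ^ δ := ((le_max_left _ _).trans (le_max_right _ _)).trans hbB
  have hb2 : B2 ≤ (n : ℝ) ^ δ :=
    (((le_max_left _ _).trans (le_max_right _ _)).trans (le_max_right _ _)).trans hbB
  have hb3 : B3 ≤ (n : ℝ) ^ δ :=
    (((le_max_right _ _).trans (le_max_right _ _)).trans (le_max_right _ _)).trans hbB
  have hK1 : (1 : ℝ) ≤ K := by exact_mod_cast hK
  have hnδ1 : 1 ≤ (n : ℝ) ^ δ := by linarith
  have hnσ1 : 1 ≤ (n : ℝ) ^ σ := Real.one_le_rpow hn1 hσ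
  -- logarithms
  have hW : 1 ≤ W := by
    have h1 := (A.init (fun _ _ => false) (fun _ => false)).isLt
    omega
  have hW1 : (1 : ℝ) ≤ W := by exact_mod_cast hW
  have hlogW : 0 ≤ Real.logb 2 W := Real.logb_nonneg (by norm_num) hW1
  have hlogn0 : 0 ≤ Real.logb 2 n := Real.logb_nonneg (by norm_num) hn1
  have hlogn : Real.logb 2 n ≤ 2 / δ * (n : ℝ) ^ δ := logb_le hn0 hδ0
  set lam : ℝ := 1 + Real.logb 2 W with hlam
  have hlam1 : 1 ≤ lam := by rw [hlam]; linarith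
  -- the parameter `x`
  obtain ⟨x, hxdef⟩ : ∃ x, x = s + Nat.clog 2 (16 * n ^ 4 * W) := ⟨_, rfl⟩
  have hsx : s ≤ x := by omega
  have hpow : 16 * n ^ 4 * W ≤ 2 ^ x := by
    calc 16 * n ^ 4 * W ≤ 2 ^ Nat.clog 2 (16 * n ^ 4 * W) := Nat.le_pow_clog (by norm_num) _
      _ ≤ 2 ^ x := Nat.pow_le_pow_right (by norm_num) (by omega)
  have hx1 : (1 : ℝ) ≤ x := by
    have : 1 ≤ x := by omega
    exact_mod_cast this
  have hxle : (x : ℝ) ≤ (n : ℝ) ^ (2 * δ) * lam := by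
    rw [hxdef, hlam]
    exact x_le hn1 (by omega) hW hδ0 hb1
  have hxle2 : (x : ℝ) ≤ (n : ℝ) ^ (σ + 3 * δ) := by
    have h1 : lam ≤ (n : ℝ) ^ δ * (n : ℝ) ^ σ := by
      calc lam ≤ 1 + (n : ℝ) ^ σ := by rw [hlam]; linarith
        _ ≤ 2 * (n : ℝ) ^ σ := by linarith
        _ ≤ (n : ℝ) ^ δ * (n : ℝ) ^ σ := mul_le_mul_of_nonneg_right hb0 (by positivity)
    calc (x : ℝ) ≤ (n : ℝ) ^ (2 * δ) * lam := hxle
      _ ≤ (n : ℝ) ^ (2 * δ) * ((n : ℝ) ^ δ * (n : ℝ) ^ σ) :=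
          mul_le_mul_of_nonneg_left h1 (by positivity)
      _ = (n : ℝ) ^ (σ + 3 * δ) := by
          rw [← Real.rpow_add hn0, ← Real.rpow_add hn0]
          ring_nf
  -- the size condition
  have hsz : (3 * s * K) ^ (2 * (s + 1) * k) * x ^ (2 * s * k) * n ^ (2 * s) *
      (n ^ c + s * K + 1) ≤ n ^ 300 := by
    have hreal := size_real (s := s) (c := c) (k := k) (K := K) (x := x) hn1 hK1 hKn hxle2 hb2
      (by rw [hgapdef, hq] at hδ2; exact hδ2)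
    exact_mod_cast hreal
  have key := quantitative2 hn3' hs hK hk1 hsx hpow hsz A hA
  have hD0 : (0 : ℝ) ≤ D := Nat.cast_nonneg D
  -- the main inequality
  have h1 : (2 ^ 13 * Real.logb 2 n) ^ (2 * k) * s ≤ (n : ℝ) ^ (δ + 2 * k * δ) := by
    have h2 : 2 ^ 13 * Real.logb 2 n ≤ 2 ^ 14 / δ * (n : ℝ) ^ δ := by
      calc 2 ^ 13 * Real.logb 2 n ≤ 2 ^ 13 * (2 / δ * (n : ℝ) ^ δ) := by linarith
        _ = 2 ^ 14 / δ * (n : ℝ) ^ δ := by ring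
    have h3 : ((n : ℝ) ^ δ) ^ (2 * k) = (n : ℝ) ^ (2 * k * δ) := by
      rw [← Real.rpow_natCast ((n : ℝ) ^ δ), ← Real.rpow_mul hn0.le]
      push_cast
      ring_nf
    calc (2 ^ 13 * Real.logb 2 n) ^ (2 * k) * s
        ≤ (2 ^ 14 / δ * (n : ℝ) ^ δ) ^ (2 * k) * s := by
          apply mul_le_mul_of_nonneg_right _ (by positivity)
          exact pow_le_pow_left₀ (by positivity) h2 _
      _ = B3 * (n : ℝ) ^ (2 * k * δ) := by rw [mul_pow, h3, hB3]; ring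
      _ ≤ (n : ℝ) ^ δ * (n : ℝ) ^ (2 * k * δ) :=
          mul_le_mul_of_nonneg_right hb3 (by positivity)
      _ = (n : ℝ) ^ (δ + 2 * k * δ) := by rw [← Real.rpow_add hn0]
  have h2 : (n : ℝ) ^ (3 - 1 / (k : ℝ)) ≤ (n : ℝ) ^ (δ * (2 * k + 3)) * (D * lam) := by
    calc (n : ℝ) ^ (3 - 1 / (k : ℝ)) ≤ (2 ^ 13 * Real.logb 2 n) ^ (2 * k) * s * x * D := key
      _ ≤ (n : ℝ) ^ (δ + 2 * k * δ) * ((n : ℝ) ^ (2 * δ) * lam) * D := by
          apply mul_le_mul_of_nonneg_right _ hD0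
          exact mul_le_mul h1 hxle (by positivity) (by positivity)
      _ = ((n : ℝ) ^ (δ + 2 * k * δ) * (n : ℝ) ^ (2 * δ)) * (D * lam) := by ring
      _ = (n : ℝ) ^ (δ * (2 * k + 3)) * (D * lam) := by
          rw [← Real.rpow_add hn0]
          ring_nf
  have h3 : (n : ℝ) ^ (3 - ε) * (n : ℝ) ^ (δ * (2 * k + 3)) ≤ (n : ℝ) ^ (3 - 1 / (k : ℝ)) := by
    rw [← Real.rpow_add hn0]
    apply Real.rpow_le_rpow_of_exponent_le hn1
    rw [hη] at hδ1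
    linarith
  have h4 : 0 < (n : ℝ) ^ (δ * (2 * k + 3)) := by positivity
  have h5 : (n : ℝ) ^ (3 - ε) * (n : ℝ) ^ (δ * (2 * k + 3)) ≤
      (D * lam) * (n : ℝ) ^ (δ * (2 * k + 3)) := by
    calc _ ≤ _ := h3
      _ ≤ (n : ℝ) ^ (δ * (2 * k + 3)) * (D * lam) := h2
      _ = (D * lam) * (n : ℝ) ^ (δ * (2 * k + 3)) := mul_comm _ _
  exact le_of_mul_le_mul_right h5 h4

end Pool.Agent.Helper23.SP
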