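import Pool.Agent.Helper23.SP.Final

set_option autoImplicit false

/-!
# The asymptotic form
-/

namespace Pool.Agent.Helper23.SP

open Finset
open Pool.Agent.Helper22.ETModel Pool.Agent.Helper22.TSModel

theorem asymptotic (s c : ℕ) (hs : 1 ≤ s) (hsc : 2 * s + c ≤ 299) (ε : ℝ) (hε : 0 < ε) :
    ∃ δ : ℝ, 0 < δ ∧ ∃ n₀ : ℕ, ∀ n : ℕ, n₀ ≤ n → ∀ K D W R : ℕ, 1 ≤ K →
      (K : ℝ) ≤ (n : ℝ) ^ δ → Real.logb 2 W ≤ (n : ℝ) ^ δ →
      ∀ A : Alg n D W R (SparseQ n s K (n ^ c)) SignType, A.Decides (sparseFam n s K (n ^ c)) →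
        (n : ℝ) ^ (3 - ε) ≤ D := by
  -- the number of levels
  obtain ⟨k, hk⟩ : ∃ k : ℕ, 2 / ε ≤ k := exists_nat_ge _
  have hk0 : (0 : ℝ) < k := lt_of_lt_of_le (by positivity) hk
  have hk1 : 1 ≤ k := by
    have : (0 : ℕ) < k := by exact_mod_cast hk0
    omega
  have hkε : 1 / (k : ℝ) ≤ ε / 2 := by
    rw [div_le_div_iff₀ hk0 (by norm_num)]
    rw [div_le_iff₀ hε] at hk
    linarith
  set p : ℕ := (s + 1) * k + 1 with hp
  have hp0 : (0 : ℝ) < p := by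
    have : 0 < p := by omega
    exact_mod_cast this
  set δ : ℝ := min (ε / (4 * k)) (1 / (2 * p)) with hδ
  have hδ0 : 0 < δ := lt_min (by positivity) (by positivity)
  have hδ1 : δ * k ≤ ε / 4 := by
    have h1 : δ ≤ ε / (4 * k) := min_le_left _ _
    calc δ * k ≤ ε / (4 * k) * k := mul_le_mul_of_nonneg_right h1 hk0.le
      _ = ε / 4 := by field_simp
  have hδ2 : δ * p ≤ 1 / 2 := by
    have h1 : δ ≤ 1 / (2 * p) := min_le_right _ _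
    calc δ * p ≤ 1 / (2 * p) * p := mul_le_mul_of_nonneg_right h1 hp0.le
      _ = 1 / 2 := by field_simp
  refine ⟨δ, hδ0, ?_⟩
  -- the threshold
  set B1 : ℝ := 2 ^ 16 * (s + 2 / δ + 1) with hB1
  set B2 : ℝ := (3 * (s : ℝ)) ^ ((s + 1) * k) * (s + 2) with hB2
  have hB10 : 0 ≤ B1 := by positivity
  have hB20 : 0 ≤ B2 := by positivity
  obtain ⟨n₀, hn₀⟩ : ∃ n₀ : ℕ, max 3 (max (B1 ^ (1 / δ)) (B2 ^ (2 : ℝ))) ≤ n₀ := exists_nat_ge _
  refine ⟨n₀, ?_⟩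
  intro n hn K D W R hK hKn hWn A hA
  have hnR : (n₀ : ℝ) ≤ n := by exact_mod_cast hn
  have hn3 : (3 : ℝ) ≤ n := (le_max_left _ _).trans (hn₀.trans hnR)
  have hn3' : 3 ≤ n := by exact_mod_cast hn3
  have hn1 : (1 : ℝ) ≤ n := by linarith
  have hn0 : (0 : ℝ) < n := by linarith
  have hb1 : B1 ≤ (n : ℝ) ^ δ := by
    have h1 : B1 ^ (1 / δ) ≤ n :=
      (le_max_left _ _).trans ((le_max_right _ _).trans (hn₀.trans hnR))
    calc B1 = (B1 ^ (1 / δ)) ^ δ := by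
          rw [← Real.rpow_mul hB10, one_div, inv_mul_cancel₀ hδ0.ne', Real.rpow_one]
      _ ≤ (n : ℝ) ^ δ := Real.rpow_le_rpow (by positivity) h1 hδ0.le
  have hb2 : B2 ≤ (n : ℝ) ^ ((1 : ℝ) / 2) := by
    have h1 : B2 ^ (2 : ℝ) ≤ n :=
      (le_max_right _ _).trans ((le_max_right _ _).trans (hn₀.trans hnR))
    calc B2 = (B2 ^ (2 : ℝ)) ^ ((1 : ℝ) / 2) := by
          rw [← Real.rpow_mul hB20]; norm_num
      _ ≤ (n : ℝ) ^ ((1 : ℝ) / 2) := Real.rpow_le_rpow (by positivity) h1 (by norm_num)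
  have hK1 : (1 : ℝ) ≤ K := by exact_mod_cast hK
  have hs1 : (1 : ℝ) ≤ s := by exact_mod_cast hs
  -- the size condition
  have hsz : (3 * s * K) ^ ((s + 1) * k) * n ^ (2 * s) * (n ^ c + s * K + 1) ≤ n ^ 300 := by
    have hreal : (3 * (s : ℝ) * K) ^ ((s + 1) * k) * (n : ℝ) ^ (2 * s) *
        ((n : ℝ) ^ c + s * K + 1) ≤ (n : ℝ) ^ 300 := by
      have hnc : (1 : ℝ) ≤ (n : ℝ) ^ c := one_le_pow₀ hn1
      have h1 : (n : ℝ) ^ c + s * K + 1 ≤ (s + 2) * K * (n : ℝ) ^ c := by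
        have h2 : (n : ℝ) ^ c ≤ K * (n : ℝ) ^ c := le_mul_of_one_le_left (by positivity) hK1
        have h3 : (s : ℝ) * K ≤ s * (K * (n : ℝ) ^ c) := by
          apply mul_le_mul_of_nonneg_left _ (by positivity)
          exact le_mul_of_one_le_right (by positivity) hnc
        have h4 : (1 : ℝ) ≤ K * (n : ℝ) ^ c := one_le_mul_of_one_le_of_one_le hK1 hnc
        nlinarith
      have hKp : (K : ℝ) ^ p ≤ (n : ℝ) ^ ((1 : ℝ) / 2) := by
        calc (K : ℝ) ^ p ≤ ((n : ℝ) ^ δ) ^ p := pow_le_pow_left₀ (by positivity) hKn p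
          _ = (n : ℝ) ^ (δ * p) := by rw [Real.rpow_mul hn0.le δ (p : ℝ), Real.rpow_natCast]
          _ ≤ (n : ℝ) ^ ((1 : ℝ) / 2) := Real.rpow_le_rpow_of_exponent_le hn1 hδ2
      have hhalf : (n : ℝ) ^ ((1 : ℝ) / 2) * (n : ℝ) ^ ((1 : ℝ) / 2) = n := by
        rw [← Real.rpow_add hn0]; norm_num
      calc (3 * (s : ℝ) * K) ^ ((s + 1) * k) * (n : ℝ) ^ (2 * s) * ((n : ℝ) ^ c + s * K + 1)
          ≤ (3 * (s : ℝ) * K) ^ ((s + 1) * k) * (n : ℝ) ^ (2 * s) *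
            ((s + 2) * K * (n : ℝ) ^ c) := by
            apply mul_le_mul_of_nonneg_left h1 (by positivity)
        _ = B2 * (K : ℝ) ^ p * (n : ℝ) ^ (2 * s + c) := by
            rw [hB2, hp, mul_pow _ (K : ℝ), pow_succ (K : ℝ), pow_add (n : ℝ)]
            ring
        _ ≤ (n : ℝ) ^ ((1 : ℝ) / 2) * (n : ℝ) ^ ((1 : ℝ) / 2) * (n : ℝ) ^ (2 * s + c) := by
            apply mul_le_mul_of_nonneg_right _ (by positivity)
            exact mul_le_mul hb2 hKp (by positivity) (by positivity)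
        _ = (n : ℝ) ^ (2 * s + c + 1) := by rw [hhalf]; ring
        _ ≤ (n : ℝ) ^ 300 := pow_le_pow_right₀ hn1 (by omega)
    exact_mod_cast hreal
  have key := quantitative hn3' hs hK hk1 hsz A hA
  -- the logarithms
  have hW : 1 ≤ W := by
    have h1 := (A.init (fun _ _ => false) (fun _ => false)).isLt
    omega
  have hW1 : (1 : ℝ) ≤ W := by exact_mod_cast hW
  have hnδ1 : 1 ≤ (n : ℝ) ^ δ := Real.one_le_rpow hn1 hδ0.le
  have hlogn : Real.logb 2 n ≤ 2 / δ * (n : ℝ) ^ δ := by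
    have h1 : Real.log n ≤ (n : ℝ) ^ δ / δ := Real.log_le_rpow_div hn0.le hδ0
    have h2 : (1 : ℝ) / 2 ≤ Real.log 2 := by
      have := Real.log_two_gt_d9; linarith
    unfold Real.logb
    rw [div_le_iff₀ (by linarith)]
    have h3 : 0 ≤ (n : ℝ) ^ δ / δ := by positivity
    calc Real.log n ≤ (n : ℝ) ^ δ / δ := h1
      _ = 2 / δ * (n : ℝ) ^ δ * (1 / 2) := by ring
      _ ≤ 2 / δ * (n : ℝ) ^ δ * Real.log 2 := mul_le_mul_of_nonneg_left h2 (by positivity)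
  have hlog : (s : ℝ) + Real.logb 2 (n * W) ≤ (s + 2 / δ + 1) * (n : ℝ) ^ δ := by
    rw [Real.logb_mul (by linarith) (by linarith)]
    have h1 : (s : ℝ) ≤ s * (n : ℝ) ^ δ := le_mul_of_one_le_right (by positivity) hnδ1
    calc (s : ℝ) + (Real.logb 2 n + Real.logb 2 W)
        ≤ s * (n : ℝ) ^ δ + (2 / δ * (n : ℝ) ^ δ + (n : ℝ) ^ δ) := by linarith
      _ = (s + 2 / δ + 1) * (n : ℝ) ^ δ := by ring
  have hlog0 : 0 ≤ (s : ℝ) + Real.logb 2 (n * W) := by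
    have : 0 ≤ Real.logb 2 ((n : ℝ) * W) :=
      Real.logb_nonneg (by norm_num) (one_le_mul_of_one_le_of_one_le hn1 hW1)
    linarith
  have hbase : 2 ^ 16 * ((s : ℝ) + Real.logb 2 (n * W)) ≤ (n : ℝ) ^ (2 * δ) := by
    calc 2 ^ 16 * ((s : ℝ) + Real.logb 2 (n * W)) ≤ 2 ^ 16 * ((s + 2 / δ + 1) * (n : ℝ) ^ δ) := by
          linarith
      _ = B1 * (n : ℝ) ^ δ := by rw [hB1]; ring
      _ ≤ (n : ℝ) ^ δ * (n : ℝ) ^ δ := mul_le_mul_of_nonneg_right hb1 (by positivity)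
      _ = (n : ℝ) ^ (2 * δ) := by rw [← Real.rpow_add hn0]; ring_nf
  have hD0 : (0 : ℝ) ≤ D := Nat.cast_nonneg D
  have h1 : (n : ℝ) ^ (3 - 1 / (k : ℝ)) ≤ (n : ℝ) ^ (2 * δ * k) * D := by
    refine key.trans (mul_le_mul_of_nonneg_right ?_ hD0)
    calc (2 ^ 16 * ((s : ℝ) + Real.logb 2 (n * W))) ^ k ≤ ((n : ℝ) ^ (2 * δ)) ^ k :=
          pow_le_pow_left₀ (by positivity) hbase k
      _ = (n : ℝ) ^ (2 * δ * k) := by
          rw [Real.rpow_mul hn0.le (2 * δ) (k : ℝ), Real.rpow_natCast]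
  have h2 : (n : ℝ) ^ (3 - ε) * (n : ℝ) ^ (2 * δ * k) ≤ (n : ℝ) ^ (3 - 1 / (k : ℝ)) := by
    rw [← Real.rpow_add hn0]
    apply Real.rpow_le_rpow_of_exponent_le hn1
    have : 2 * δ * k = 2 * (δ * k) := by ring
    rw [this]
    linarith
  have h3 : 0 < (n : ℝ) ^ (2 * δ * k) := by positivity
  have h4 : (n : ℝ) ^ (3 - ε) * (n : ℝ) ^ (2 * δ * k) ≤ D * (n : ℝ) ^ (2 * δ * k) := by
    calc _ ≤ _ := h2
      _ ≤ (n : ℝ) ^ (2 * δ * k) * D := h1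
      _ = D * (n : ℝ) ^ (2 * δ * k) := mul_comm _ _
  exact le_of_mul_le_mul_right h4 h3

end Pool.Agent.Helper23.SP
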