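import Pool.Agent.Helper23.SP.Main
import Pool.Agent.Helper61.SP.Numeric

set_option autoImplicit false

/-!
# The final bound
-/

namespace Pool.Agent.Helper23.SP

open Finset
open Pool.Agent.Helper22.ETModel Pool.Agent.Helper22.TSModel

variable {n s K C D W R : ℕ}

theorem quantitative (hn : 3 ≤ n) (hs : 1 ≤ s) (hK : 1 ≤ K) {k : ℕ} (hk : 1 ≤ k)
    (hsz : (3 * s * K) ^ ((s + 1) * k) * n ^ (2 * s) * (C + s * K + 1) ≤ n ^ 300)
    (A : Alg n D W R (SparseQ n s K C) SignType) (hA : A.Decides (sparseFam n s K C)) :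
    (n : ℝ) ^ (3 - 1 / (k : ℝ)) ≤ (2 ^ 16 * ((s : ℝ) + Real.logb 2 (n * W))) ^ k * D := by
  obtain ⟨m, hmdef⟩ : ∃ m, m = n / 3 := ⟨_, rfl⟩
  have h3m : 3 * m ≤ n := by omega
  have hm : 1 ≤ m := by omega
  have hn5 : n ≤ 5 * m := by omega
  have hn1 : (1 : ℝ) ≤ n := by exact_mod_cast (show 1 ≤ n by omega)
  have hm1 : (1 : ℝ) ≤ m := by exact_mod_cast hm
  have hW : 1 ≤ W := by
    have h1 := (A.init (fun _ _ => false) (fun _ => false)).isLt
    omega
  have hW1 : (1 : ℝ) ≤ W := by exact_mod_cast hW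
  have hk1 : (1 : ℝ) ≤ k := by exact_mod_cast hk
  have hs1 : (1 : ℝ) ≤ s := by exact_mod_cast hs
  have hlog0 : 0 ≤ Real.logb 2 W := Real.logb_nonneg (by norm_num) hW1
  have hlogn : 1 ≤ Real.logb 2 n := by
    rw [Real.le_logb_iff_rpow_le (by norm_num) (by linarith), Real.rpow_one]
    have : (3 : ℝ) ≤ n := by exact_mod_cast hn
    linarith
  have hlogmul : Real.logb 2 (n * W) = Real.logb 2 n + Real.logb 2 W :=
    Real.logb_mul (by linarith) (by linarith)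
  set lam : ℝ := (s : ℝ) + Real.logb 2 (n * W) with hlam
  have hlam1 : 1 ≤ lam := by rw [hlam, hlogmul]; linarith
  have hexp0 : 0 ≤ 3 - 1 / (k : ℝ) := by
    have : 1 / (k : ℝ) ≤ 1 := by
      rw [div_le_one (by linarith)]; exact hk1
    linarith
  have hexp3 : 3 - 1 / (k : ℝ) ≤ 3 := by
    have : 0 ≤ 1 / (k : ℝ) := by positivity
    linarith
  have htriv := trivial_bound h3m hm hs hK hk hsz A hA
  -- large number of queries
  by_cases hD : n ^ 3 < D
  · have h1 : (n : ℝ) ^ (3 - 1 / (k : ℝ)) ≤ (n : ℝ) ^ (3 : ℝ) :=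
      Real.rpow_le_rpow_of_exponent_le hn1 hexp3
    have h2 : (n : ℝ) ^ (3 : ℝ) ≤ D := by
      have : ((n ^ 3 : ℕ) : ℝ) ≤ D := by exact_mod_cast hD.le
      push_cast at this
      calc (n : ℝ) ^ (3 : ℝ) = (n : ℝ) ^ (3 : ℕ) := by norm_cast
        _ ≤ D := this
    have h3 : (1 : ℝ) ≤ (2 ^ 16 * lam) ^ k := one_le_pow₀ (by nlinarith)
    have hD0 : (0 : ℝ) ≤ D := Nat.cast_nonneg D
    exact (h1.trans h2).trans (le_mul_of_one_le_left hD0 h3)
  push Not at hD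
  -- the parameter `x`
  obtain ⟨x, hxdef⟩ : ∃ x, x = s + Nat.clog 2 (2 * n ^ 6 * W) := ⟨_, rfl⟩
  have hsx : s ≤ x := by omega
  have hpow : 2 * n ^ 6 * W ≤ 2 ^ x := by
    calc 2 * n ^ 6 * W ≤ 2 ^ Nat.clog 2 (2 * n ^ 6 * W) := Nat.le_pow_clog (by norm_num) _
      _ ≤ 2 ^ x := Nat.pow_le_pow_right (by norm_num) (by omega)
  have hxle : (x : ℝ) ≤ 8 * lam := by
    have hbig : 1 < 2 * n ^ 6 * W := by
      have : 1 ≤ n ^ 6 * W := Nat.mul_pos (Nat.pow_pos (by omega)) hW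
      rw [mul_assoc]
      omega
    have h1 := Nat.pow_pred_clog_lt_self (b := 2) (by norm_num) hbig
    have hc1 : 1 ≤ Nat.clog 2 (2 * n ^ 6 * W) := Nat.clog_pos (by norm_num) hbig
    have h2 : ((Nat.clog 2 (2 * n ^ 6 * W) : ℕ) : ℝ) - 1 ≤ Real.logb 2 (2 * n ^ 6 * W) := by
      rw [Real.le_logb_iff_rpow_le (by norm_num) (by positivity)]
      have h3 : ((2 ^ (Nat.clog 2 (2 * n ^ 6 * W)).pred : ℕ) : ℝ) ≤ ((2 * n ^ 6 * W : ℕ) : ℝ) := by
        exact_mod_cast h1.le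
      push_cast at h3
      calc (2 : ℝ) ^ (((Nat.clog 2 (2 * n ^ 6 * W) : ℕ) : ℝ) - 1)
          = (2 : ℝ) ^ (Nat.clog 2 (2 * n ^ 6 * W)).pred := by
            rw [← Real.rpow_natCast]
            congr 1
            rw [Nat.pred_eq_sub_one, Nat.cast_sub hc1, Nat.cast_one]
        _ ≤ 2 * n ^ 6 * W := h3
    have h4 : Real.logb 2 (2 * n ^ 6 * W) = 1 + 6 * Real.logb 2 n + Real.logb 2 W := by
      rw [Real.logb_mul (by positivity) (by positivity), Real.logb_mul (by norm_num)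
        (by positivity), Real.logb_pow, Real.logb_self_eq_one (by norm_num)]
      push_cast
      ring
    rw [hxdef]
    push_cast
    rw [hlam, hlogmul]
    rw [h4] at h2
    linarith
  -- the bound for `m`
  have hnum : (m : ℝ) ^ (3 - 1 / (k : ℝ)) ≤ (48 * (x : ℝ)) ^ k * D := by
    apply Pool.Agent.Helper61.SP.numeric hm hsx (hs.trans hsx) hk htriv
    intro k' β N hk' hkk hβ hbk hN hN'
    apply main_bound h3m hs hK hk' hkk hsz hβ hsx hbk hN hN' _ A hA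
    have hk'm : k' ≤ m := by
      have h1 : k' < 20 ^ k' := Nat.lt_pow_self (by norm_num)
      have h2 : 20 ^ k' ≤ (20 * x * β) ^ k' := by
        apply Nat.pow_le_pow_left
        rw [mul_assoc]
        exact Nat.le_mul_of_pos_right 20 (Nat.mul_pos (hs.trans hsx) hβ)
      omega
    have h1 : k' + k' ^ 2 * (20 * x * β) ^ k' ≤ 2 * m ^ 3 := by
      have h2 : k' ^ 2 * (20 * x * β) ^ k' ≤ m ^ 2 * m :=
        Nat.mul_le_mul (Nat.pow_le_pow_left hk'm 2) hbk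
      have h3 : m ≤ m ^ 3 := by
        calc m = m * 1 := (Nat.mul_one m).symm
          _ ≤ m * m ^ 2 := Nat.mul_le_mul_left _ (Nat.pow_pos hm)
          _ = m ^ 3 := by ring
      have h4 : m ^ 2 * m = m ^ 3 := by ring
      omega
    have h5 : D + m ≤ 2 * n ^ 3 := by
      have h6 : m ≤ n ^ 3 := by
        calc m ≤ n := by omega
          _ = n * 1 := (Nat.mul_one n).symm
          _ ≤ n * n ^ 2 := Nat.mul_le_mul_left _ (Nat.pow_pos (by omega))
          _ = n ^ 3 := by ring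
      omega
    have h7 : 27 * m ^ 3 ≤ n ^ 3 := by
      calc 27 * m ^ 3 = (3 * m) ^ 3 := by ring
        _ ≤ n ^ 3 := Nat.pow_le_pow_left h3m 3
    calc 12 * ((D + m) * W * (k' + k' ^ 2 * (20 * x * β) ^ k'))
        ≤ 12 * ((2 * n ^ 3) * W * (2 * m ^ 3)) :=
          Nat.mul_le_mul_left _ (Nat.mul_le_mul (Nat.mul_le_mul_right _ h5) h1)
      _ = (48 * m ^ 3) * (n ^ 3 * W) := by ring
      _ ≤ (2 * n ^ 3) * (n ^ 3 * W) := by
          apply Nat.mul_le_mul_right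
          omega
      _ = 2 * n ^ 6 * W := by ring
      _ ≤ 2 ^ x := hpow
  -- conclusion
  have h1 : (n : ℝ) ^ (3 - 1 / (k : ℝ)) ≤ (5 * (m : ℝ)) ^ (3 - 1 / (k : ℝ)) := by
    apply Real.rpow_le_rpow (by linarith) _ hexp0
    exact_mod_cast hn5
  have h2 : (5 * (m : ℝ)) ^ (3 - 1 / (k : ℝ)) ≤ 125 * (m : ℝ) ^ (3 - 1 / (k : ℝ)) := by
    rw [Real.mul_rpow (by norm_num) (by linarith)]
    apply mul_le_mul_of_nonneg_right _ (by positivity)
    calc (5 : ℝ) ^ (3 - 1 / (k : ℝ)) ≤ (5 : ℝ) ^ (3 : ℝ) :=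
          Real.rpow_le_rpow_of_exponent_le (by norm_num) hexp3
      _ = 125 := by norm_num
  have h3 : (125 : ℝ) ≤ 125 ^ k := by
    calc (125 : ℝ) = 125 ^ 1 := (pow_one _).symm
      _ ≤ 125 ^ k := pow_le_pow_right₀ (by norm_num) hk
  have hD0 : (0 : ℝ) ≤ D := Nat.cast_nonneg D
  have hx0 : (0 : ℝ) ≤ x := Nat.cast_nonneg x
  calc (n : ℝ) ^ (3 - 1 / (k : ℝ)) ≤ 125 * (m : ℝ) ^ (3 - 1 / (k : ℝ)) := h1.trans h2
    _ ≤ 125 ^ k * ((48 * (x : ℝ)) ^ k * D) := by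
        apply mul_le_mul h3 hnum (by positivity) (by positivity)
    _ = (125 * (48 * (x : ℝ))) ^ k * D := by rw [mul_pow 125]; ring
    _ ≤ (2 ^ 16 * lam) ^ k * D := by
        apply mul_le_mul_of_nonneg_right _ hD0
        apply pow_le_pow_left₀ (by positivity)
        nlinarith

end Pool.Agent.Helper23.SP
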