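import Pool.Agent.Helper23.SP.Main2
import Pool.Agent.Helper74.SP.Numeric2

set_option autoImplicit false

/-!
# The final bound, second version
-/

namespace Pool.Agent.Helper23.SP

open Finset
open Pool.Agent.Helper22.ETModel Pool.Agent.Helper22.TSModel

variable {n s K C D W R : ℕ}

theorem quantitative2 (hn : 3 ≤ n) (hs : 1 ≤ s) (hK : 1 ≤ K) {k x : ℕ} (hk : 1 ≤ k)
    (hsx : s ≤ x) (hWx : 16 * n ^ 4 * W ≤ 2 ^ x)
    (hsz : (3 * s * K) ^ (2 * (s + 1) * k) * x ^ (2 * s * k) * n ^ (2 * s) * (C + s * K + 1) ≤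
      n ^ 300)
    (A : Alg n D W R (SparseQ n s K C) SignType) (hA : A.Decides (sparseFam n s K C)) :
    (n : ℝ) ^ (3 - 1 / (k : ℝ)) ≤ (2 ^ 13 * Real.logb 2 n) ^ (2 * k) * s * x * D := by
  obtain ⟨m, hmdef⟩ : ∃ m, m = n / 3 := ⟨_, rfl⟩
  have h3m : 3 * m ≤ n := by omega
  have hm : 1 ≤ m := by omega
  have hn5 : n ≤ 5 * m := by omega
  have hx1 : 1 ≤ x := hs.trans hsx
  have hn1 : (1 : ℝ) ≤ n := by exact_mod_cast (show 1 ≤ n by omega)
  have hm1 : (1 : ℝ) ≤ m := by exact_mod_cast hm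
  have hk1 : (1 : ℝ) ≤ k := by exact_mod_cast hk
  have hs1 : (1 : ℝ) ≤ s := by exact_mod_cast hs
  have hxr : (1 : ℝ) ≤ x := by exact_mod_cast hx1
  have hD0 : (0 : ℝ) ≤ D := Nat.cast_nonneg D
  have hlogn : 1 ≤ Real.logb 2 n := by
    rw [Real.le_logb_iff_rpow_le (by norm_num) (by linarith), Real.rpow_one]
    have : (3 : ℝ) ≤ n := by exact_mod_cast hn
    linarith
  have hexp0 : 0 ≤ 3 - 1 / (k : ℝ) := by
    have : 1 / (k : ℝ) ≤ 1 := by
      rw [div_le_one (by linarith)]; exact hk1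
    linarith
  have hexp3 : 3 - 1 / (k : ℝ) ≤ 3 := by
    have : 0 ≤ 1 / (k : ℝ) := by positivity
    linarith
  -- the size conditions
  have hsz2 : (3 * s * K) ^ ((s + 1) * (2 * k)) * n ^ (2 * s) * x ^ (s * (2 * k)) *
      (C + s * K + 1) ≤ n ^ 300 := by
    calc _ = (3 * s * K) ^ (2 * (s + 1) * k) * x ^ (2 * s * k) * n ^ (2 * s) *
          (C + s * K + 1) := by
          rw [show (s + 1) * (2 * k) = 2 * (s + 1) * k by ring,
            show s * (2 * k) = 2 * s * k by ring]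
          ring
      _ ≤ n ^ 300 := hsz
  have hsz1 : (3 * s * K) ^ ((s + 1) * (2 * k)) * n ^ (2 * s) * (C + s * K + 1) ≤ n ^ 300 := by
    refine le_trans ?_ hsz2
    apply Nat.mul_le_mul_right
    exact Nat.le_mul_of_pos_right _ (Nat.pow_pos hx1)
  have htriv := trivial_bound h3m hm hs hK (k := 2 * k) (by omega) hsz1 A hA
  -- large number of queries
  by_cases hD : n ^ 3 < D
  · have h1 : (n : ℝ) ^ (3 - 1 / (k : ℝ)) ≤ (n : ℝ) ^ (3 : ℝ) :=
      Real.rpow_le_rpow_of_exponent_le hn1 hexp3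
    have h2 : (n : ℝ) ^ (3 : ℝ) ≤ D := by
      have : ((n ^ 3 : ℕ) : ℝ) ≤ D := by exact_mod_cast hD.le
      push_cast at this
      calc (n : ℝ) ^ (3 : ℝ) = (n : ℝ) ^ (3 : ℕ) := by norm_cast
        _ ≤ D := this
    have h3 : (1 : ℝ) ≤ (2 ^ 13 * Real.logb 2 n) ^ (2 * k) := one_le_pow₀ (by nlinarith)
    have h4 : (1 : ℝ) ≤ (2 ^ 13 * Real.logb 2 n) ^ (2 * k) * s * x :=
      one_le_mul_of_one_le_of_one_le (one_le_mul_of_one_le_of_one_le h3 hs1) hxr
    exact (h1.trans h2).trans (le_mul_of_one_le_left hD0 h4)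
  push Not at hD
  -- the parameter `t`
  obtain ⟨t, htdef⟩ : ∃ t, t = Nat.clog 2 (2 * m) := ⟨_, rfl⟩
  have ht2 : 2 * m ≤ 2 ^ t := by rw [htdef]; exact Nat.le_pow_clog (by norm_num) _
  have ht1 : 1 ≤ t := by rw [htdef]; exact Nat.clog_pos (by norm_num) (by omega)
  have htle : (t : ℝ) ≤ 2 * Real.logb 2 n := by
    have h1 := Nat.pow_pred_clog_lt_self (b := 2) (x := 2 * m) (by norm_num) (by omega)
    rw [← htdef] at h1
    have h2 : (t : ℝ) - 1 ≤ Real.logb 2 n := by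
      rw [Real.le_logb_iff_rpow_le (by norm_num) (by positivity)]
      have h3 : ((2 ^ t.pred : ℕ) : ℝ) ≤ ((n : ℕ) : ℝ) := by
        have : 2 ^ t.pred ≤ n := h1.le.trans (by omega)
        exact_mod_cast this
      push_cast at h3
      calc (2 : ℝ) ^ ((t : ℝ) - 1) = (2 : ℝ) ^ t.pred := by
            rw [← Real.rpow_natCast]
            congr 1
            rw [Nat.pred_eq_sub_one, Nat.cast_sub ht1, Nat.cast_one]
        _ ≤ n := h3
    linarith
  -- the bound for `m`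
  have hnum : (m : ℝ) ^ (3 - 2 / ((2 * k : ℕ) : ℝ)) ≤
      6 * (120 * (t : ℝ)) ^ (2 * k) * s * x * D := by
    apply Pool.Agent.Helper74.SP.numeric2 hm hs hsx (by omega) ht1 htriv
    intro β l r0 N hβ hl1 hl hbk hr0 hr01 hN hN'
    apply main_bound2 h3m hs hK hsz2 hβ ht1 hl1 hl hbk ht2 hr0 hr01 hN hN' _ A hA
    have hkm : 2 * k ≤ m := by
      have h1 : 2 * k < 60 ^ (2 * k) := Nat.lt_pow_self (by norm_num)
      have h2 : 60 ^ (2 * k) ≤ (60 * β * t) ^ (2 * k) := by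
        apply Nat.pow_le_pow_left
        rw [mul_assoc]
        exact Nat.le_mul_of_pos_right 60 (Nat.mul_pos hβ ht1)
      omega
    have h5 : D + m ≤ 2 * n ^ 3 := by
      have h6 : m ≤ n ^ 3 := by
        calc m ≤ n := by omega
          _ = n * 1 := (Nat.mul_one n).symm
          _ ≤ n * n ^ 2 := Nat.mul_le_mul_left _ (Nat.pow_pos (by omega))
          _ = n ^ 3 := by ring
      omega
    calc 12 * (2 * (D + m) * W * (2 * k))
        ≤ 12 * (2 * (2 * n ^ 3) * W * m) := by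
          apply Nat.mul_le_mul_left
          apply Nat.mul_le_mul _ hkm
          apply Nat.mul_le_mul_right
          exact Nat.mul_le_mul_left _ h5
      _ = 16 * n ^ 3 * W * (3 * m) := by ring
      _ ≤ 16 * n ^ 3 * W * n := Nat.mul_le_mul_left _ h3m
      _ = 16 * n ^ 4 * W := by ring
      _ ≤ 2 ^ x := hWx
  have hexp : 3 - 2 / ((2 * k : ℕ) : ℝ) = 3 - 1 / (k : ℝ) := by
    push_cast
    have : (k : ℝ) ≠ 0 := by positivity
    field_simp
  rw [hexp] at hnum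
  -- conclusion
  have h1 : (n : ℝ) ^ (3 - 1 / (k : ℝ)) ≤ (5 * (m : ℝ)) ^ (3 - 1 / (k : ℝ)) := by
    apply Real.rpow_le_rpow (by linarith) _ hexp0
    exact_mod_cast hn5
  have h2 : (5 * (m : ℝ)) ^ (3 - 1 / (k : ℝ)) ≤ 125 * (m : ℝ) ^ (3 - 1 / (k : ℝ)) := by
    rw [Real.mul_rpow (by norm_num) (by linarith)]
    apply mul_le_mul_of_nonneg_right _ (by positivity)
    calc (5 : ℝ) ^ (3 - 1 / (k : ℝ)) ≤ (5 : ℝ) ^ (3 : ℝ) :=
          Real.rpow_le_rpow_of_exponent_le (by norm_num) hexp3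
      _ = 125 := by norm_num
  have h3 : (750 : ℝ) ≤ 28 ^ (2 * k) := by
    calc (750 : ℝ) ≤ 28 ^ 2 := by norm_num
      _ ≤ 28 ^ (2 * k) := pow_le_pow_right₀ (by norm_num) (by omega)
  have hsxD : 0 ≤ (s : ℝ) * x * D := by positivity
  have h4 : (120 * (t : ℝ)) ^ (2 * k) ≤ (240 * Real.logb 2 n) ^ (2 * k) := by
    apply pow_le_pow_left₀ (by positivity)
    linarith
  calc (n : ℝ) ^ (3 - 1 / (k : ℝ)) ≤ 125 * (m : ℝ) ^ (3 - 1 / (k : ℝ)) := h1.trans h2
    _ ≤ 125 * (6 * (120 * (t : ℝ)) ^ (2 * k) * s * x * D) :=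
        mul_le_mul_of_nonneg_left hnum (by norm_num)
    _ = 750 * (120 * (t : ℝ)) ^ (2 * k) * (s * x * D) := by ring
    _ ≤ 28 ^ (2 * k) * (240 * Real.logb 2 n) ^ (2 * k) * (s * x * D) := by
        apply mul_le_mul_of_nonneg_right _ hsxD
        exact mul_le_mul h3 h4 (by positivity) (by positivity)
    _ = (28 * (240 * Real.logb 2 n)) ^ (2 * k) * (s * x * D) := by rw [mul_pow 28]
    _ ≤ (2 ^ 13 * Real.logb 2 n) ^ (2 * k) * (s * x * D) := by
        apply mul_le_mul_of_nonneg_right _ hsxD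
        apply pow_le_pow_left₀ (by positivity)
        nlinarith
    _ = (2 ^ 13 * Real.logb 2 n) ^ (2 * k) * s * x * D := by ring

end Pool.Agent.Helper23.SP
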