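import Pool.Agent.Helper23.SP.Basic

set_option autoImplicit false

/-!
# Resampling one level
-/

namespace Pool.Agent.Helper23.SP

open Finset

variable {El : Type} {k b U : ℕ} [NeZero b]

/-- The digits and the hash function of level `r`. -/
def getL (r : Fin k) (ω : Om El k b U) : (El → Fin b) × ((Fin k → Fin b) → Fin U) :=
  (fun e => ω.1 e r, ω.2 r)

omit [NeZero b] in
lemma getL_put (r : Fin k) (ω : Om El k b U) (ξ : (El → Fin b) × ((Fin k → Fin b) → Fin U)) :
    getL r (put r ω ξ) = ξ := by
  unfold getL put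
  refine Prod.ext ?_ ?_
  · funext e
    simp
  · simp

omit [NeZero b] in
lemma put_put (r : Fin k) (ω : Om El k b U)
    (ξ ξ' : (El → Fin b) × ((Fin k → Fin b) → Fin U)) :
    put r (put r ω ξ) ξ' = put r ω ξ' := by
  unfold put
  refine Prod.ext ?_ ?_
  · funext e
    simp
  · simp

omit [NeZero b] in
lemma put_getL (r : Fin k) (ω : Om El k b U) : put r ω (getL r ω) = ω := by
  unfold put getL
  refine Prod.ext ?_ ?_
  · funext e
    simp
  · simp

open Classical in
omit [NeZero b] in
theorem card_put' [Fintype El] [DecidableEq El] (r : Fin k) (A : Finset (Om El k b U)) :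
    ∑ ω : Om El k b U,
      (univ.filter (fun ξ : (El → Fin b) × ((Fin k → Fin b) → Fin U) => put r ω ξ ∈ A)).card =
    A.card * Fintype.card ((El → Fin b) × ((Fin k → Fin b) → Fin U)) := by
  have h1 : ∑ ω : Om El k b U,
      (univ.filter (fun ξ : (El → Fin b) × ((Fin k → Fin b) → Fin U) => put r ω ξ ∈ A)).card =
      (univ.filter (fun p : Om El k b U × ((El → Fin b) × ((Fin k → Fin b) → Fin U)) =>
        put r p.1 p.2 ∈ A)).card := by
    have h2 := Fintype.sum_prod_type (fun p : Om El k b U ×
      ((El → Fin b) × ((Fin k → Fin b) → Fin U)) => if put r p.1 p.2 ∈ A then (1 : ℕ) else 0)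
    rw [card_filter]
    refine Eq.trans ?_ (h2.symm.trans ?_)
    · apply sum_congr rfl
      intro ω _
      rw [card_filter]
      apply sum_congr rfl
      intro ξ _
      congr
    · apply sum_congr
      · ext; simp
      · intro p _
        congr
  rw [h1, ← card_univ, ← card_product]
  refine card_bij' (fun p _ => (put r p.1 p.2, getL r p.1))
    (fun p _ => (put r p.1 p.2, getL r p.1)) ?_ ?_ ?_ ?_
  · rintro ⟨ω, ξ⟩ h
    rw [mem_filter] at h
    rw [mem_product]
    exact ⟨h.2, mem_univ _⟩
  · rintro ⟨ω, ξ⟩ h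
    rw [mem_product] at h
    rw [mem_filter]
    refine ⟨mem_univ _, ?_⟩
    simp only
    rw [put_put, put_getL]
    exact h.1
  · rintro ⟨ω, ξ⟩ _
    simp only
    rw [put_put, put_getL, getL_put]
  · rintro ⟨ω, ξ⟩ _
    simp only
    rw [put_put, put_getL, getL_put]

open Classical in
omit [NeZero b] in
/-- SP-B1. -/
theorem card_put [Fintype El] [DecidableEq El] (r : Fin k) (A : Finset (Om El k b U)) (x : ℕ)
    (h : ∀ ω : Om El k b U,
      (univ.filter (fun ξ : (El → Fin b) × ((Fin k → Fin b) → Fin U) => put r ω ξ ∈ A)).card *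
        2 ^ x ≤ Fintype.card ((El → Fin b) × ((Fin k → Fin b) → Fin U))) :
    A.card * 2 ^ x ≤ Fintype.card (Om El k b U) := by
  rcases A.eq_empty_or_nonempty with rfl | ⟨ω0, _⟩
  · simp
  have hpos : 0 < Fintype.card ((El → Fin b) × ((Fin k → Fin b) → Fin U)) :=
    Fintype.card_pos_iff.2 ⟨getL r ω0⟩
  apply Nat.le_of_mul_le_mul_right _ hpos
  calc A.card * 2 ^ x * Fintype.card ((El → Fin b) × ((Fin k → Fin b) → Fin U))
      = (A.card * Fintype.card ((El → Fin b) × ((Fin k → Fin b) → Fin U))) * 2 ^ x := by ring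
    _ = ∑ ω : Om El k b U, (univ.filter (fun ξ : (El → Fin b) × ((Fin k → Fin b) → Fin U) =>
          put r ω ξ ∈ A)).card * 2 ^ x := by rw [← card_put' r A, sum_mul]
    _ ≤ ∑ _ω : Om El k b U, Fintype.card ((El → Fin b) × ((Fin k → Fin b) → Fin U)) :=
        sum_le_sum (fun ω _ => h ω)
    _ = Fintype.card (Om El k b U) *
        Fintype.card ((El → Fin b) × ((Fin k → Fin b) → Fin U)) := by
        rw [sum_const, card_univ, smul_eq_mul]

lemma pre_update_lt {r : Fin k} {i : ℕ} (hi : i ≤ r.val) (x : Fin k → Fin b) (y : Fin b) :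
    pre i (Function.update x r y) = pre i x := by
  funext j
  unfold pre
  split_ifs with hj
  · rw [Function.update_of_ne]
    intro h
    rw [h] at hj
    omega
  · rfl

/-- SP-B2. -/
theorem g_put_lt {r i : Fin k} (hi : i.val < r.val) (ω : Om El k b U)
    (ξ : (El → Fin b) × ((Fin k → Fin b) → Fin U)) (e : El) :
    g i (put r ω ξ) e = g i ω e := by
  unfold g put
  have hne : i ≠ r := by
    intro h; rw [h] at hi; exact lt_irrefl _ hi
  simp only
  rw [Function.update_of_ne hne, pre_update_lt (by omega)]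

/-- SP-B3. -/
theorem g_put_self (r : Fin k) (ω : Om El k b U)
    (ξ : (El → Fin b) × ((Fin k → Fin b) → Fin U)) (e : El) :
    g r (put r ω ξ) e = ξ.2 (Function.update (pre r.val (ω.1 e)) r (ξ.1 e)) := by
  unfold g put
  simp only
  rw [Function.update_self]
  refine congrArg ξ.2 (funext fun j => ?_)
  unfold pre
  by_cases hj : j = r
  · subst hj
    simp
  · have hne : j.val ≠ r.val := fun h => hj (Fin.ext h)
    rw [Function.update_of_ne hj, Function.update_of_ne hj]
    by_cases h1 : j.val < r.val
    · rw [if_pos h1, if_pos (by omega)]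
    · rw [if_neg h1, if_neg (by omega)]

/-- SP-B4. -/
theorem g_put_gt {r i : Fin k} (hi : r.val < i.val) (ω : Om El k b U)
    {ξ ξ' : (El → Fin b) × ((Fin k → Fin b) → Fin U)} {e : El} (he : ξ.1 e = ξ'.1 e) :
    g i (put r ω ξ) e = g i (put r ω ξ') e := by
  unfold g put
  have hne : i ≠ r := by
    intro h; rw [h] at hi; exact lt_irrefl _ hi
  simp only
  rw [Function.update_of_ne hne, Function.update_of_ne hne, he]

/-- SP-B5. -/
theorem pass_put [Fintype El] {r : Fin k} {r' : ℕ} (hr : r' ≤ r.val) (γ : El → ℤ)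
    (ω : Om El k b U) (ξ : (El → Fin b) × ((Fin k → Fin b) → Fin U)) :
    Pass γ (put r ω ξ) r' ↔ Pass γ ω r' := by
  unfold Pass
  constructor
  · intro h i hi u
    have h1 := h i hi u
    have h2 : (univ.filter (fun e => g i (put r ω ξ) e = u)) =
        (univ.filter (fun e => g i ω e = u)) := by
      apply filter_congr
      intro e _
      rw [g_put_lt (by omega)]
    rwa [h2] at h1
  · intro h i hi u
    have h1 := h i hi u
    have h2 : (univ.filter (fun e => g i (put r ω ξ) e = u)) =
        (univ.filter (fun e => g i ω e = u)) := by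
      apply filter_congr
      intro e _
      rw [g_put_lt (by omega)]
    rwa [← h2] at h1

end Pool.Agent.Helper23.SP
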