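import Pool.Agent.Helper23.SP.Trivial
import Pool.Agent.Helper23.SP.Fin.WindowMain

set_option autoImplicit false

/-!
# The bounds for the number of queries
-/

namespace Pool.Agent.Helper23.SP

open Finset
open Pool.Agent.Helper22.ETModel Pool.Agent.Helper22.TSModel

variable {n m s K C D W R : ℕ}

/-- The main bound, before the choice of the parameters. -/
theorem main_bound (h : 3 * m ≤ n) (hs : 1 ≤ s) (hK : 1 ≤ K) {k k' x β N : ℕ}
    (hk' : 1 ≤ k') (hkk : k' ≤ k)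
    (hsz : (3 * s * K) ^ ((s + 1) * k) * n ^ (2 * s) * (C + s * K + 1) ≤ n ^ 300)
    (hβ : 1 ≤ β) (hsx : s ≤ x) (hbk : (20 * x * β) ^ k' ≤ m)
    (hN : D ≤ N * β ^ (k' - 1)) (hN' : N * β ^ (k' - 1) ≤ D + m)
    (hx : 12 * ((D + m) * W * (k' + k' ^ 2 * (20 * x * β) ^ k')) ≤ 2 ^ x)
    (A : Alg n D W R (SparseQ n s K C) SignType) (hA : A.Decides (sparseFam n s K C)) :
    m ^ 2 ≤ 24 * x * N := by
  classical
  have hx1 : 1 ≤ x := hs.trans hsx
  obtain ⟨b, hb⟩ : ∃ b, b = 20 * x * β := ⟨_, rfl⟩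
  have hb1 : 1 ≤ b := by
    rw [hb]; exact Nat.mul_pos (Nat.mul_pos (by omega) hx1) hβ
  have : NeZero b := ⟨by omega⟩
  rw [← hb] at hbk hx
  obtain ⟨mu, hmuM, hmu⟩ := Pc.exists_mu (b ^ 2) s (s * K)
  have hr := size_ok (k' := k') (b := b) hs hK hkk (hbk.trans (by omega)) hsz hb1
  have key := transfer (k := k') (b := b) h hs hK hbk (Y := s * K *
    (b ^ 2 * (2 * (s * K) + 1)) ^ s + 1) hmu hmuM (by omega) le_rfl hr A hA
  set L := C + s * K + 1
  set Y := s * K * (b ^ 2 * (2 * (s * K) + 1)) ^ s + 1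
  have hOK : ∀ ρ, (procOf (k := k') (b := b) A h L Y mu ρ).OK s :=
    fun ρ => procOf_ok A h hmu hmuM (by omega) le_rfl ρ
  set Ωc := Fintype.card (Om (E m) k' b (b ^ 2)) with hΩc
  -- one random string
  have hone : ∀ ρ : Fin R → Bool, 2 * ∑ ω : Om (E m) k' b (b ^ 2), (rv A h L Y mu ω ρ).card * 6 ≤
      Ωc * (24 * x * N + m ^ 2) := by
    intro ρ
    obtain ⟨Bad, hBad, hgood⟩ := F78.window_main (procOf (k := k') (b := b) A h L Y mu ρ) (hOK ρ)
      (T := D + m) hsx hx1 hβ hb rfl hk'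
    have hBad12 : 12 * Bad.card ≤ Ωc := by
      have h2 : 0 < 2 ^ x := by positivity
      apply Nat.le_of_mul_le_mul_right _ h2
      calc 12 * Bad.card * 2 ^ x = 12 * (Bad.card * 2 ^ x) := by ring
        _ ≤ 12 * ((D + m) * W * (k' + k' ^ 2 * b ^ k') * Ωc) := Nat.mul_le_mul_left _ hBad
        _ = 12 * ((D + m) * W * (k' + k' ^ 2 * b ^ k')) * Ωc := by ring
        _ ≤ 2 ^ x * Ωc := Nat.mul_le_mul_right _ hx
        _ = Ωc * 2 ^ x := by ring
    have hcard : ∀ ω : Om (E m) k' b (b ^ 2), (rv A h L Y mu ω ρ).card ≤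
        2 * x * N + (if ω ∈ Bad then m ^ 2 else 0) := by
      intro ω
      by_cases hω : ω ∈ Bad
      · rw [if_pos hω]
        exact (rv_card_le' A h L Y mu ω ρ).trans (Nat.le_add_left _ _)
      · rw [if_neg hω, Nat.add_zero]
        refine (rv_card_le A h L Y mu ω ρ).trans ?_
        refine (card_le_card (rev_mono _ ω 0 _ hN le_rfl)).trans ?_
        have := rev_mul_card (procOf (k := k') (b := b) A h L Y mu ρ) ω 0
          (A.init (flagOf h) ρ) N (β ^ (k' - 1)) k' (2 * x) (by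
            intro j hj
            apply hgood ω hω
            have h3 : (j + 1) * β ^ (k' - 1) ≤ N * β ^ (k' - 1) := Nat.mul_le_mul_right _ hj
            have h4 : (j + 1) * β ^ (k' - 1) = j * β ^ (k' - 1) + β ^ (k' - 1) := by ring
            omega)
        calc _ ≤ N * (2 * x) := this
          _ = 2 * x * N := by ring
    have hsum : ∑ ω : Om (E m) k' b (b ^ 2), (rv A h L Y mu ω ρ).card ≤
        Ωc * (2 * x * N) + Bad.card * m ^ 2 := by
      refine (sum_le_sum (fun ω _ => hcard ω)).trans ?_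
      rw [sum_add_distrib, sum_const, card_univ, smul_eq_mul, Finset.sum_ite_mem, univ_inter,
        sum_const, smul_eq_mul]
    rw [← sum_mul]
    calc 2 * ((∑ ω : Om (E m) k' b (b ^ 2), (rv A h L Y mu ω ρ).card) * 6)
        ≤ 2 * ((Ωc * (2 * x * N) + Bad.card * m ^ 2) * 6) :=
          Nat.mul_le_mul_left _ (Nat.mul_le_mul_right _ hsum)
      _ = Ωc * (24 * x * N) + (12 * Bad.card) * m ^ 2 := by ring
      _ ≤ Ωc * (24 * x * N) + Ωc * m ^ 2 :=
          Nat.add_le_add_left (Nat.mul_le_mul_right _ hBad12) _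
      _ = Ωc * (24 * x * N + m ^ 2) := by ring
  have hpos : 0 < 2 ^ R * Ωc := by
    apply Nat.mul_pos (by positivity)
    apply Fintype.card_pos_iff.2
    exact ⟨(fun _ _ => 0, fun _ _ => ⟨0, by positivity⟩)⟩
  have htot : 2 * (m ^ 2) * (2 ^ R * Ωc) ≤ (24 * x * N + m ^ 2) * (2 ^ R * Ωc) := by
    calc 2 * (m ^ 2) * (2 ^ R * Ωc) = 2 * (m ^ 2 * 2 ^ R * Ωc) := by ring
      _ ≤ 2 * (6 * ∑ ω : Om (E m) k' b (b ^ 2), ∑ ρ, (rv A h L Y mu ω ρ).card) :=
          Nat.mul_le_mul_left _ key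
      _ = ∑ ρ, 2 * ∑ ω : Om (E m) k' b (b ^ 2), (rv A h L Y mu ω ρ).card * 6 := by
          rw [sum_comm, mul_comm 6, sum_mul, mul_sum]
          apply sum_congr rfl
          intro ρ _
          rw [sum_mul]
      _ ≤ ∑ _ρ : Fin R → Bool, Ωc * (24 * x * N + m ^ 2) := sum_le_sum (fun ρ _ => hone ρ)
      _ = (24 * x * N + m ^ 2) * (2 ^ R * Ωc) := by
          rw [sum_const, card_univ, Fintype.card_fun, Fintype.card_bool, Fintype.card_fin,
            smul_eq_mul]
          ring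
  have := Nat.le_of_mul_le_mul_right htot hpos
  omega

end Pool.Agent.Helper23.SP
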