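import Pool.Agent.Helper23.SP.Trivial
import Pool.Agent.Helper23.SP.Fin.WindowMain2

set_option autoImplicit false

/-!
# The bounds for the number of queries, second version
-/

namespace Pool.Agent.Helper23.SP

open Finset
open Pool.Agent.Helper22.ETModel Pool.Agent.Helper22.TSModel

variable {n m s K C D W R : ℕ}

/-- The weights fit into the range. -/
lemma size_ok2 (hs : 1 ≤ s) (hK : 1 ≤ K) {k b x : ℕ} (hbk : b ^ k ≤ n) (hx : 1 ≤ x)
    (hsz : (3 * s * K) ^ ((s + 1) * k) * n ^ (2 * s) * x ^ (s * k) * (C + s * K + 1) ≤ n ^ 300)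
    (hb : 1 ≤ b) :
    (C + s * K + 1) * (s * K * (b ^ 2 * x * (2 * (s * K) + 1)) ^ s + 1) ^ k ≤ n ^ 300 := by
  have hsK : 1 ≤ s * K := Nat.mul_pos hs hK
  have h3 : 3 * s * K = 3 * (s * K) := by ring
  have h1 : s * K * (b ^ 2 * x * (2 * (s * K) + 1)) ^ s + 1 ≤
      (3 * s * K) ^ (s + 1) * b ^ (2 * s) * x ^ s := by
    have h2 : 2 * (s * K) + 1 ≤ 3 * s * K := by omega
    have h3 : (b ^ 2 * x * (2 * (s * K) + 1)) ^ s ≤ b ^ (2 * s) * x ^ s * (3 * s * K) ^ s := by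
      rw [mul_pow, mul_pow, ← pow_mul]
      exact Nat.mul_le_mul_left _ (Nat.pow_le_pow_left h2 s)
    have h4 : 1 ≤ b ^ (2 * s) * x ^ s * (3 * s * K) ^ s :=
      Nat.mul_pos (Nat.mul_pos (Nat.pow_pos hb) (Nat.pow_pos hx)) (Nat.pow_pos (by omega))
    calc s * K * (b ^ 2 * x * (2 * (s * K) + 1)) ^ s + 1
        ≤ s * K * (b ^ (2 * s) * x ^ s * (3 * s * K) ^ s) +
            1 * (b ^ (2 * s) * x ^ s * (3 * s * K) ^ s) := by
          rw [one_mul]
          exact Nat.add_le_add (Nat.mul_le_mul_left _ h3) h4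
      _ = (s * K + 1) * (b ^ (2 * s) * x ^ s * (3 * s * K) ^ s) := by ring
      _ ≤ (3 * s * K) * (b ^ (2 * s) * x ^ s * (3 * s * K) ^ s) := by
          apply Nat.mul_le_mul_right
          omega
      _ = (3 * s * K) ^ (s + 1) * b ^ (2 * s) * x ^ s := by ring
  calc (C + s * K + 1) * (s * K * (b ^ 2 * x * (2 * (s * K) + 1)) ^ s + 1) ^ k
      ≤ (C + s * K + 1) * ((3 * s * K) ^ (s + 1) * b ^ (2 * s) * x ^ s) ^ k :=
        Nat.mul_le_mul_left _ (Nat.pow_le_pow_left h1 k)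
    _ = (3 * s * K) ^ ((s + 1) * k) * (b ^ k) ^ (2 * s) * x ^ (s * k) * (C + s * K + 1) := by
        rw [mul_pow, mul_pow, ← pow_mul, ← pow_mul, ← pow_mul, ← pow_mul, mul_comm (2 * s) k]
        ring
    _ ≤ (3 * s * K) ^ ((s + 1) * k) * n ^ (2 * s) * x ^ (s * k) * (C + s * K + 1) := by
        apply Nat.mul_le_mul_right
        apply Nat.mul_le_mul_right
        apply Nat.mul_le_mul_left
        exact Nat.pow_le_pow_left hbk _
    _ ≤ n ^ 300 := hsz

/-- The main bound, before the choice of the parameters. -/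
theorem main_bound2 (h : 3 * m ≤ n) (hs : 1 ≤ s) (hK : 1 ≤ K) {k x β t l r0 N : ℕ}
    (hsz : (3 * s * K) ^ ((s + 1) * k) * n ^ (2 * s) * x ^ (s * k) * (C + s * K + 1) ≤ n ^ 300)
    (hβ : 1 ≤ β) (ht : 1 ≤ t) (hl1 : 1 ≤ l) (hl : s * l ≤ x) (hbk : (60 * β * t) ^ k ≤ m)
    (ht2 : 2 * m ≤ 2 ^ t) (hr0 : r0 ≤ k) (hr01 : 20 * x * β ≤ (60 * β * t) ^ r0)
    (hN : D ≤ N * (l * β ^ (k - r0))) (hN' : N * (l * β ^ (k - r0)) ≤ D + m)
    (hx : 12 * (2 * (D + m) * W * k) ≤ 2 ^ x)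
    (A : Alg n D W R (SparseQ n s K C) SignType) (hA : A.Decides (sparseFam n s K C)) :
    m ^ 2 ≤ 72 * x * N := by
  classical
  have hx1 : 1 ≤ x := le_trans (Nat.mul_pos hs hl1) hl
  obtain ⟨b, hb⟩ : ∃ b, b = 60 * β * t := ⟨_, rfl⟩
  have hb1 : 1 ≤ b := by
    rw [hb]; exact Nat.mul_pos (Nat.mul_pos (by omega) hβ) ht
  have : NeZero b := ⟨by omega⟩
  rw [← hb] at hbk hr01
  obtain ⟨mu, hmuM, hmu⟩ := Pc.exists_mu (b ^ 2 * x) s (s * K)
  have hr := size_ok2 (k := k) (b := b) hs hK (hbk.trans (by omega)) hx1 hsz hb1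
  have key := transfer (k := k) (b := b) h hs hK hbk (Y := s * K *
    (b ^ 2 * x * (2 * (s * K) + 1)) ^ s + 1) hmu hmuM (by omega) le_rfl hr A hA
  set L := C + s * K + 1
  set Y := s * K * (b ^ 2 * x * (2 * (s * K) + 1)) ^ s + 1
  have hOK : ∀ ρ, (procOf (k := k) (b := b) A h L Y mu ρ).OK s :=
    fun ρ => procOf_ok A h hmu hmuM (by omega) le_rfl ρ
  set Ωc := Fintype.card (Om (E m) k b (b ^ 2 * x)) with hΩc
  -- one random string
  have hone : ∀ ρ : Fin R → Bool,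
      2 * ∑ ω : Om (E m) k b (b ^ 2 * x), (rv A h L Y mu ω ρ).card * 6 ≤
      Ωc * (72 * x * N + m ^ 2) := by
    intro ρ
    obtain ⟨Bad, hBad, hgood⟩ := F8.window_main2 (procOf (k := k) (b := b) A h L Y mu ρ) (hOK ρ)
      (T := D + m) hx1 hβ ht hl hb rfl (le_trans (Nat.mul_le_mul_left 2 hbk) ht2) hr0 hr01
    have hBad12 : 12 * Bad.card ≤ Ωc := by
      have h2 : 0 < 2 ^ x := by positivity
      apply Nat.le_of_mul_le_mul_right _ h2
      calc 12 * Bad.card * 2 ^ x = 12 * (Bad.card * 2 ^ x) := by ring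
        _ ≤ 12 * (2 * (D + m) * W * k * Ωc) := Nat.mul_le_mul_left _ hBad
        _ = 12 * (2 * (D + m) * W * k) * Ωc := by ring
        _ ≤ 2 ^ x * Ωc := Nat.mul_le_mul_right _ hx
        _ = Ωc * 2 ^ x := by ring
    have hcard : ∀ ω : Om (E m) k b (b ^ 2 * x), (rv A h L Y mu ω ρ).card ≤
        6 * x * N + (if ω ∈ Bad then m ^ 2 else 0) := by
      intro ω
      by_cases hω : ω ∈ Bad
      · rw [if_pos hω]
        exact (rv_card_le' A h L Y mu ω ρ).trans (Nat.le_add_left _ _)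
      · rw [if_neg hω, Nat.add_zero]
        refine (rv_card_le A h L Y mu ω ρ).trans ?_
        refine (card_le_card (rev_mono _ ω 0 _ hN le_rfl)).trans ?_
        have := rev_mul_card (procOf (k := k) (b := b) A h L Y mu ρ) ω 0
          (A.init (flagOf h) ρ) N (l * β ^ (k - r0)) k (6 * x) (by
            intro j hj
            apply hgood ω hω
            have h3 : (j + 1) * (l * β ^ (k - r0)) ≤ N * (l * β ^ (k - r0)) :=
              Nat.mul_le_mul_right _ hj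
            have h4 : (j + 1) * (l * β ^ (k - r0)) =
              j * (l * β ^ (k - r0)) + l * β ^ (k - r0) := by ring
            omega)
        calc _ ≤ N * (6 * x) := this
          _ = 6 * x * N := by ring
    have hsum : ∑ ω : Om (E m) k b (b ^ 2 * x), (rv A h L Y mu ω ρ).card ≤
        Ωc * (6 * x * N) + Bad.card * m ^ 2 := by
      refine (sum_le_sum (fun ω _ => hcard ω)).trans ?_
      rw [sum_add_distrib, sum_const, card_univ, smul_eq_mul, Finset.sum_ite_mem, univ_inter,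
        sum_const, smul_eq_mul]
    rw [← sum_mul]
    calc 2 * ((∑ ω : Om (E m) k b (b ^ 2 * x), (rv A h L Y mu ω ρ).card) * 6)
        ≤ 2 * ((Ωc * (6 * x * N) + Bad.card * m ^ 2) * 6) :=
          Nat.mul_le_mul_left _ (Nat.mul_le_mul_right _ hsum)
      _ = Ωc * (72 * x * N) + (12 * Bad.card) * m ^ 2 := by ring
      _ ≤ Ωc * (72 * x * N) + Ωc * m ^ 2 :=
          Nat.add_le_add_left (Nat.mul_le_mul_right _ hBad12) _
      _ = Ωc * (72 * x * N + m ^ 2) := by ring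
  have hpos : 0 < 2 ^ R * Ωc := by
    apply Nat.mul_pos (by positivity)
    apply Fintype.card_pos_iff.2
    exact ⟨(fun _ _ => 0, fun _ _ => ⟨0, by positivity⟩)⟩
  have htot : 2 * (m ^ 2) * (2 ^ R * Ωc) ≤ (72 * x * N + m ^ 2) * (2 ^ R * Ωc) := by
    calc 2 * (m ^ 2) * (2 ^ R * Ωc) = 2 * (m ^ 2 * 2 ^ R * Ωc) := by ring
      _ ≤ 2 * (6 * ∑ ω : Om (E m) k b (b ^ 2 * x), ∑ ρ, (rv A h L Y mu ω ρ).card) :=
          Nat.mul_le_mul_left _ key
      _ = ∑ ρ, 2 * ∑ ω : Om (E m) k b (b ^ 2 * x), (rv A h L Y mu ω ρ).card * 6 := by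
          rw [sum_comm, mul_comm 6, sum_mul, mul_sum]
          apply sum_congr rfl
          intro ρ _
          rw [sum_mul]
      _ ≤ ∑ _ρ : Fin R → Bool, Ωc * (72 * x * N + m ^ 2) := sum_le_sum (fun ρ _ => hone ρ)
      _ = (72 * x * N + m ^ 2) * (2 ^ R * Ωc) := by
          rw [sum_const, card_univ, Fintype.card_fun, Fintype.card_bool, Fintype.card_fin,
            smul_eq_mul]
          ring
  have := Nat.le_of_mul_le_mul_right htot hpos
  omega

end Pool.Agent.Helper23.SP
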