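import Pool.Agent.Helper23.SP.Basic
import Pool.Agent.Helper26.SP.ExistsMu
import Pool.Agent.Helper45.SP.QCoef
import Pool.Agent.Helper59.SP.SignPart
import Pool.Agent.Helper61.SP.Mate
import Pool.Agent.Helper74.SP.H123
import Pool.Agent.Helper92.SP.Averaging

set_option autoImplicit false

/-!
# The pieces used for the transfer from algorithms to processes
-/

namespace Pool.Agent.Helper23.SP.Pc

export Pool.Agent.Helper26.SP (exists_mu)
export Pool.Agent.Helper45.SP (val_inst card_supp_qcoef sum_qcoef)
export Pool.Agent.Helper59.SP (sign_part)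
export Pool.Agent.Helper61.SP (mate_prob)
export Pool.Agent.Helper74.SP (inst_valid base_no plant_yes)
export Pool.Agent.Helper92.SP (averaging)

end Pool.Agent.Helper23.SP.Pc
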