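import Pool.Agent.Helper23.SP.Pieces

set_option autoImplicit false

/-!
# From algorithms to processes
-/

namespace Pool.Agent.Helper23.SP

open Finset
open Pool.Agent.Helper22.ETModel Pool.Agent.Helper22.TSModel

variable {n m s K C D W R k b U : ℕ} [NeZero b]

/-- The process of an algorithm with fixed random bits. -/
noncomputable def procOf (A : Alg n D W R (SparseQ n s K C) SignType) (h : 3 * m ≤ n) (L Y : ℕ)
    (mu : Fin U → ℕ) (ρ : Fin R → Bool) : Proc (E m) k b U (Fin W) where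
  γ t v := qcoef h (A.ask (flagOf h) ρ t v)
  nx t v ω := A.next (flagOf h) ρ t v
    (SignType.sign ((A.ask (flagOf h) ρ t v).val (instOf h (wgt L Y mu ω tinyB))))

lemma tinyB_le (e : E m) : |tinyB e| ≤ 1 := by
  unfold tinyB; split_ifs <;> simp

lemma tinyP_le (e0 e : E m) : |tinyP e0 e| ≤ 1 := by
  unfold tinyP; split_ifs
  · simp
  · exact tinyB_le e

lemma tinyB_or (e : E m) : tinyB e = 0 ∨ tinyB e = 1 := by
  unfold tinyB; split_ifs <;> simp

lemma tinyP_or (e0 e : E m) : tinyP e0 e = 0 ∨ tinyP e0 e = 1 := by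
  unfold tinyP; split_ifs
  · simp
  · exact tinyB_or e

lemma val_wgt (h : 3 * m ≤ n) (q : SparseQ n s K C) (L Y : ℕ) (mu : Fin U → ℕ)
    (ω : Om (E m) k b U) (tiny : E m → ℤ) :
    q.val (instOf h (wgt L Y mu ω tiny)) = q.const + ∑ e, qcoef h q e * value L Y mu ω tiny e :=
  Pc.val_inst h q (value L Y mu ω tiny)

/-- Signs of queries that do not pass level `r`. -/
lemma sign_wgt (h : 3 * m ≤ n) {L Y M : ℕ} {mu : Fin U → ℕ} (hmu : Free mu s (s * K))
    (hM : ∀ u, mu u ≤ M) (hY : s * K * M < Y) (hL : C + s * K + 1 ≤ L) (q : SparseQ n s K C)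
    {ω ω' : Om (E m) k b U} {r : ℕ} (hP : ¬ Pass (qcoef h q) ω r)
    (hg : ∀ i : Fin k, i.val < r → ∀ e ∈ supp (qcoef h q), g i ω e = g i ω' e)
    {tiny tiny' : E m → ℤ} (ht : ∀ e, |tiny e| ≤ 1) (ht' : ∀ e, |tiny' e| ≤ 1) :
    SignType.sign (q.val (instOf h (wgt L Y mu ω tiny))) =
      SignType.sign (q.val (instOf h (wgt L Y mu ω' tiny'))) := by
  rw [val_wgt, val_wgt]
  apply Pc.sign_part hmu hM hY (Pc.card_supp_qcoef h q) _ _ hP hg ht ht'
  · have := Pc.sum_qcoef h q
    push_cast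
    exact_mod_cast this
  · have h1 := q.const_le
    have h2 : ((C + s * K + 1 : ℕ) : ℤ) ≤ (L : ℤ) := by exact_mod_cast hL
    push_cast at h2 ⊢
    linarith

lemma procOf_ok (A : Alg n D W R (SparseQ n s K C) SignType) (h : 3 * m ≤ n) {L Y M : ℕ}
    {mu : Fin U → ℕ} (hmu : Free mu s (s * K)) (hM : ∀ u, mu u ≤ M) (hY : s * K * M < Y)
    (hL : C + s * K + 1 ≤ L) (ρ : Fin R → Bool) :
    (procOf (k := k) (b := b) A h L Y mu ρ).OK s where
  card_le t v := Pc.card_supp_qcoef h _
  full t v ω ω' hg := by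
    show A.next _ _ _ _ _ = A.next _ _ _ _ _
    congr 2
    rw [val_wgt, val_wgt]
    congr 1
    apply sum_congr rfl
    intro e _
    by_cases he : qcoef h (A.ask (flagOf h) ρ t v) e = 0
    · rw [he]; simp
    · have he' : e ∈ supp (qcoef h (A.ask (flagOf h) ρ t v)) := by
        simp [supp, he]
      congr 1
      unfold value
      congr 2
      apply sum_congr rfl
      intro i _
      rw [hg i e he']
  part t v ω ω' r hP hg := by
    show A.next _ _ _ _ _ = A.next _ _ _ _ _
    congr 1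
    exact sign_wgt h hmu hM hY hL _ hP hg tinyB_le tinyB_le

lemma state_base (A : Alg n D W R (SparseQ n s K C) SignType) (h : 3 * m ≤ n) (L Y : ℕ)
    (mu : Fin U → ℕ) (ρ : Fin R → Bool) (ω : Om (E m) k b U) (t : ℕ) :
    A.state (sparseFam n s K C) (instOf h (wgt L Y mu ω tinyB)) ρ t =
      (procOf A h L Y mu ρ).st ω 0 (A.init (flagOf h) ρ) t := by
  induction t with
  | zero => rfl
  | succ t ih =>
    rw [st_succ, ← ih]
    simp only [Nat.zero_add]
    rfl

lemma state_plant (A : Alg n D W R (SparseQ n s K C) SignType) (h : 3 * m ≤ n) {L Y M : ℕ}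
    {mu : Fin U → ℕ} (hmu : Free mu s (s * K)) (hM : ∀ u, mu u ≤ M) (hY : s * K * M < Y)
    (hL : C + s * K + 1 ≤ L) (ρ : Fin R → Bool) (ω : Om (E m) k b U) (e0 : E m)
    (he0 : e0 ∉ (procOf (k := k) A h L Y mu ρ).rev ω 0 (A.init (flagOf h) ρ) D k) (t : ℕ)
    (ht : t ≤ D) :
    A.state (sparseFam n s K C) (instOf h (wgt L Y mu ω (tinyP e0))) ρ t =
      A.state (sparseFam n s K C) (instOf h (wgt L Y mu ω tinyB)) ρ t := by
  induction t with
  | zero => rfl
  | succ t ih =>
    have ih' := ih (by omega)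
    show A.next _ _ _ _ _ = A.next _ _ _ _ _
    rw [ih']
    show A.next (flagOf h) ρ t _ _ = A.next (flagOf h) ρ t _ _
    congr 1
    show SignType.sign ((A.ask (flagOf h) ρ t _).val _) =
      SignType.sign ((A.ask (flagOf h) ρ t _).val _)
    by_cases hP : Pass (qcoef h (A.ask (flagOf h) ρ t
        (A.state (sparseFam n s K C) (instOf h (wgt L Y mu ω tinyB)) ρ t))) ω k
    · -- `e0` is not in the support
      have hz : qcoef h (A.ask (flagOf h) ρ t
          (A.state (sparseFam n s K C) (instOf h (wgt L Y mu ω tinyB)) ρ t)) e0 = 0 := by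
        by_contra hne
        apply he0
        rw [mem_rev]
        refine ⟨t, by omega, ?_, ?_⟩
        · rw [← state_base, Nat.zero_add]
          exact hP
        · rw [← state_base, Nat.zero_add, mem_supp]
          exact hne
      congr 1
      rw [val_wgt, val_wgt]
      congr 1
      apply sum_congr rfl
      intro e _
      by_cases he : e = e0
      · rw [he, hz]; simp
      · congr 1
        unfold value tinyP
        rw [if_neg he]
    · exact sign_wgt h hmu hM hY hL _ hP (fun _ _ _ _ => rfl) (tinyP_le e0) tinyB_le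

lemma output_eq (A : Alg n D W R (SparseQ n s K C) SignType) (h : 3 * m ≤ n)
    (w w' : E m → ℤ) (ρ : Fin R → Bool)
    (hst : A.state (sparseFam n s K C) (instOf h w) ρ D =
      A.state (sparseFam n s K C) (instOf h w') ρ D) :
    A.output (sparseFam n s K C) (instOf h w) ρ =
      A.output (sparseFam n s K C) (instOf h w') ρ := by
  unfold Pool.Agent.Helper22.TSModel.Alg.output
  rw [hst]
  rfl

open Classical in
/-- The revealed elements of type `0`. -/
noncomputable def rv (A : Alg n D W R (SparseQ n s K C) SignType) (h : 3 * m ≤ n) (L Y : ℕ)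
    (mu : Fin U → ℕ) (ω : Om (E m) k b U) (ρ : Fin R → Bool) : Finset (Fin m × Fin m) :=
  univ.filter (fun p => ((0, p.1, p.2) : E m) ∈
    (procOf (k := k) A h L Y mu ρ).rev ω 0 (A.init (flagOf h) ρ) D k)

lemma rv_card_le (A : Alg n D W R (SparseQ n s K C) SignType) (h : 3 * m ≤ n) (L Y : ℕ)
    (mu : Fin U → ℕ) (ω : Om (E m) k b U) (ρ : Fin R → Bool) :
    (rv A h L Y mu ω ρ).card ≤
      ((procOf (k := k) A h L Y mu ρ).rev ω 0 (A.init (flagOf h) ρ) D k).card := by
  classical
  apply card_le_card_of_injOn (fun p => ((0, p.1, p.2) : E m))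
  · intro p hp
    rw [mem_coe, rv, mem_filter] at hp
    exact hp.2
  · intro p _ p' _ hpp
    simp only [Prod.mk.injEq, true_and] at hpp
    exact Prod.ext hpp.1 hpp.2

lemma rv_card_le' (A : Alg n D W R (SparseQ n s K C) SignType) (h : 3 * m ≤ n) (L Y : ℕ)
    (mu : Fin U → ℕ) (ω : Om (E m) k b U) (ρ : Fin R → Bool) :
    (rv A h L Y mu ω ρ).card ≤ m ^ 2 := by
  classical
  refine (card_le_univ _).trans ?_
  rw [Fintype.card_prod, Fintype.card_fin, sq]

/-- The transfer: the average number of revealed elements of type `0` is at least `m ^ 2 / 6`. -/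
theorem transfer (h : 3 * m ≤ n) (hs : 1 ≤ s) (hK : 1 ≤ K) (hbk : b ^ k ≤ m) {L Y M : ℕ}
    {mu : Fin U → ℕ} (hmu : Free mu s (s * K)) (hM : ∀ u, mu u ≤ M) (hY : s * K * M < Y)
    (hL : C + s * K + 1 ≤ L) (hr : L * Y ^ k ≤ n ^ 300)
    (A : Alg n D W R (SparseQ n s K C) SignType) (hA : A.Decides (sparseFam n s K C)) :
    m ^ 2 * 2 ^ R * Fintype.card (Om (E m) k b U) ≤
      6 * ∑ ω : Om (E m) k b U, ∑ ρ, (rv A h L Y mu ω ρ).card := by
  classical
  have hsK : 1 ≤ s * K := Nat.mul_pos hs hK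
  have hMY : ∀ u, mu u < Y := by
    intro u
    refine lt_of_le_of_lt (hM u) (lt_of_le_of_lt ?_ hY)
    exact Nat.le_mul_of_pos_left M hsK
  have hL2 : 2 ≤ L := by omega
  have key := Pc.averaging (Ω := Om (E m) k b U) (R := Fin R → Bool) (X := Fin m × Fin m)
    (fun ω ρ => A.output (sparseFam n s K C) (instOf h (wgt L Y mu ω tinyB)) ρ)
    (fun p ω ρ => A.output (sparseFam n s K C)
      (instOf h (wgt L Y mu ω (tinyP (0, p.1, p.2)))) ρ)
    (fun p ω => ∃ l : Fin m, ω.1 (1, p.2, l) = ω.1 (0, p.1, p.2))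
    (fun ω ρ => rv A h L Y mu ω ρ) ?_ ?_ ?_ ?_
  · rw [Fintype.card_prod, Fintype.card_fin, Fintype.card_fun, Fintype.card_bool,
      Fintype.card_fin, ← sq] at key
    exact key
  · intro ω
    have h1 := hA (instOf h (wgt L Y mu ω tinyB))
      (Pc.inst_valid h hMY (by omega) hr ω tinyB_or)
    rw [Fintype.card_fun, Fintype.card_bool, Fintype.card_fin]
    refine h1.trans (Nat.mul_le_mul_left _ (card_le_card ?_))
    intro ρ hρ
    rw [mem_filter] at hρ ⊢
    refine ⟨mem_univ _, ?_⟩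
    have h2 := Pc.base_no h hL2 mu ω (Y := Y)
    have h3 : ¬ (A.output (sparseFam n s K C) (instOf h (wgt L Y mu ω tinyB)) ρ = true) :=
      fun hh => h2 (hρ.2.1 hh)
    simpa using h3
  · rintro ⟨i, j⟩ ω ⟨l, hl⟩
    have h1 := hA (instOf h (wgt L Y mu ω (tinyP (0, i, j))))
      (Pc.inst_valid h hMY (by omega) hr ω (tinyP_or _))
    rw [Fintype.card_fun, Fintype.card_bool, Fintype.card_fin]
    refine h1.trans (Nat.mul_le_mul_left _ (card_le_card ?_))
    intro ρ hρ
    rw [mem_filter] at hρ ⊢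
    exact ⟨mem_univ _, hρ.2.2 (Pc.plant_yes h mu ω i j l hl)⟩
  · rintro ⟨i, j⟩
    convert Pc.mate_prob (U := U) hbk i j
  · rintro ⟨i, j⟩ ω ρ hne
    by_contra hnot
    have hnm : ((0, i, j) : E m) ∉
        (procOf (k := k) A h L Y mu ρ).rev ω 0 (A.init (flagOf h) ρ) D k := by
      intro hmem
      apply hnot
      exact mem_filter.2 ⟨mem_univ _, hmem⟩
    have h5 := state_plant (k := k) A h hmu hM hY hL ρ ω (0, i, j) hnm D le_rfl
    have h6 := output_eq A h _ _ ρ h5
    exact hne h6.symm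

end Pool.Agent.Helper23.SP
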