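import Pool.Agent.Helper23.SP.Transfer

set_option autoImplicit false

/-!
# The quadratic bound
-/

namespace Pool.Agent.Helper23.SP

open Finset
open Pool.Agent.Helper22.ETModel Pool.Agent.Helper22.TSModel

variable {n m s K C D W R : ℕ}

/-- The weights fit into the range. -/
lemma size_ok (hs : 1 ≤ s) (hK : 1 ≤ K) {k k' b : ℕ} (hk : k' ≤ k) (hbk : b ^ k' ≤ n)
    (hsz : (3 * s * K) ^ ((s + 1) * k) * n ^ (2 * s) * (C + s * K + 1) ≤ n ^ 300) (hb : 1 ≤ b) :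
    (C + s * K + 1) * (s * K * (b ^ 2 * (2 * (s * K) + 1)) ^ s + 1) ^ k' ≤ n ^ 300 := by
  have hsK : 1 ≤ s * K := Nat.mul_pos hs hK
  have h1 : s * K * (b ^ 2 * (2 * (s * K) + 1)) ^ s + 1 ≤ (3 * s * K) ^ (s + 1) * b ^ (2 * s) := by
    have h2 : 2 * (s * K) + 1 ≤ 3 * s * K := by
      have : 3 * s * K = 3 * (s * K) := by ring
      omega
    have h3 : (b ^ 2 * (2 * (s * K) + 1)) ^ s ≤ b ^ (2 * s) * (3 * s * K) ^ s := by
      rw [mul_pow, ← pow_mul]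
      exact Nat.mul_le_mul_left _ (Nat.pow_le_pow_left h2 s)
    have h4 : 1 ≤ b ^ (2 * s) * (3 * s * K) ^ s :=
      Nat.mul_pos (Nat.pow_pos hb) (Nat.pow_pos (by omega))
    calc s * K * (b ^ 2 * (2 * (s * K) + 1)) ^ s + 1
        ≤ s * K * (b ^ (2 * s) * (3 * s * K) ^ s) + 1 * (b ^ (2 * s) * (3 * s * K) ^ s) := by
          rw [one_mul]
          exact Nat.add_le_add (Nat.mul_le_mul_left _ h3) h4
      _ = (s * K + 1) * (b ^ (2 * s) * (3 * s * K) ^ s) := by ring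
      _ ≤ (3 * s * K) * (b ^ (2 * s) * (3 * s * K) ^ s) := by
          apply Nat.mul_le_mul_right
          have : 3 * s * K = 3 * (s * K) := by ring
          omega
      _ = (3 * s * K) ^ (s + 1) * b ^ (2 * s) := by ring
  calc (C + s * K + 1) * (s * K * (b ^ 2 * (2 * (s * K) + 1)) ^ s + 1) ^ k'
      ≤ (C + s * K + 1) * ((3 * s * K) ^ (s + 1) * b ^ (2 * s)) ^ k' :=
        Nat.mul_le_mul_left _ (Nat.pow_le_pow_left h1 k')
    _ = (3 * s * K) ^ ((s + 1) * k') * (b ^ k') ^ (2 * s) * (C + s * K + 1) := by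
        rw [mul_pow, ← pow_mul, ← pow_mul, ← pow_mul, mul_comm (2 * s) k']
        ring
    _ ≤ (3 * s * K) ^ ((s + 1) * k) * n ^ (2 * s) * (C + s * K + 1) := by
        apply Nat.mul_le_mul_right
        apply Nat.mul_le_mul
        · exact Nat.pow_le_pow_right (Nat.mul_pos (Nat.mul_pos (by omega) hs) hK)
            (Nat.mul_le_mul_left _ hk)
        · exact Nat.pow_le_pow_left hbk _
    _ ≤ n ^ 300 := hsz

/-- The quadratic bound. -/
theorem trivial_bound (h : 3 * m ≤ n) (hm : 1 ≤ m) (hs : 1 ≤ s) (hK : 1 ≤ K) {k : ℕ}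
    (hk : 1 ≤ k)
    (hsz : (3 * s * K) ^ ((s + 1) * k) * n ^ (2 * s) * (C + s * K + 1) ≤ n ^ 300)
    (A : Alg n D W R (SparseQ n s K C) SignType) (hA : A.Decides (sparseFam n s K C)) :
    m ^ 2 ≤ 6 * s * D := by
  obtain ⟨mu, hmuM, hmu⟩ := Pc.exists_mu (1 ^ 2) s (s * K)
  have hr := size_ok (k' := 1) (b := 1) hs hK hk (by simpa using (show 1 ≤ n by omega)) hsz le_rfl
  have key := transfer (k := 1) (b := 1) h hs hK (by simpa using hm) (Y := s * K *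
    (1 ^ 2 * (2 * (s * K) + 1)) ^ s + 1) hmu hmuM (by omega) le_rfl hr A hA
  set L := C + s * K + 1
  set Y := s * K * (1 ^ 2 * (2 * (s * K) + 1)) ^ s + 1
  have hOK : ∀ ρ, (procOf (k := 1) (b := 1) A h L Y mu ρ).OK s :=
    fun ρ => procOf_ok A h hmu hmuM (by omega) le_rfl ρ
  have hle : ∑ ω : Om (E m) 1 1 (1 ^ 2), ∑ ρ, (rv A h L Y mu ω ρ).card ≤
      Fintype.card (Om (E m) 1 1 (1 ^ 2)) * (2 ^ R * (s * D)) := by
    calc ∑ ω : Om (E m) 1 1 (1 ^ 2), ∑ ρ, (rv A h L Y mu ω ρ).card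
        ≤ ∑ _ω : Om (E m) 1 1 (1 ^ 2), ∑ _ρ : Fin R → Bool, s * D := by
          apply sum_le_sum
          intro ω _
          apply sum_le_sum
          intro ρ _
          exact (rv_card_le A h L Y mu ω ρ).trans (rev_card_le (hOK ρ) ω 0 _ D 1)
      _ = Fintype.card (Om (E m) 1 1 (1 ^ 2)) * (2 ^ R * (s * D)) := by
          rw [sum_const, sum_const, card_univ, card_univ, Fintype.card_fun, Fintype.card_bool,
            Fintype.card_fin, smul_eq_mul, smul_eq_mul]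
  have hpos : 0 < 2 ^ R * Fintype.card (Om (E m) 1 1 (1 ^ 2)) := by
    apply Nat.mul_pos (by positivity)
    apply Fintype.card_pos_iff.2
    exact ⟨(fun _ _ => 0, fun _ _ => 0)⟩
  apply Nat.le_of_mul_le_mul_right _ hpos
  calc m ^ 2 * (2 ^ R * Fintype.card (Om (E m) 1 1 (1 ^ 2)))
      = m ^ 2 * 2 ^ R * Fintype.card (Om (E m) 1 1 (1 ^ 2)) := by ring
    _ ≤ 6 * ∑ ω : Om (E m) 1 1 (1 ^ 2), ∑ ρ, (rv A h L Y mu ω ρ).card := key
    _ ≤ 6 * (Fintype.card (Om (E m) 1 1 (1 ^ 2)) * (2 ^ R * (s * D))) :=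
        Nat.mul_le_mul_left _ hle
    _ = 6 * s * D * (2 ^ R * Fintype.card (Om (E m) 1 1 (1 ^ 2))) := by ring

end Pool.Agent.Helper23.SP
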